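import Pool.Agent.N978.BR.Stm

/-!
# A Bezout identity with integral coefficients
-/

set_option autoImplicit false

namespace Pool.Agent.N978.BR

open Module Polynomial Matrix

namespace BZ

theorem cop (B : ℚ[X]) (hB : Free B) (N : ℕ) (hN : 0 < N) : IsCoprime B (X ^ N - 1) := by
  rw [Polynomial.isCoprime_iff_aeval_ne_zero_of_isAlgClosed ℚ ℂ]
  intro z
  by_cases h : aeval z B = 0
  · right
    intro h2
    apply hB z h N hN
    have h3 : z ^ N - 1 = 0 := by simpa using h2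
    exact sub_eq_zero.1 h3
  · exact Or.inl h

theorem den (p : ℚ[X]) : ∃ (d : ℤ) (P : ℤ[X]), d ≠ 0 ∧
    P.map (Int.castRingHom ℚ) = C (d : ℚ) * p := by
  obtain ⟨d, hdm, hd⟩ := IsLocalization.integerNormalization_spec (nonZeroDivisors ℤ) p
  refine ⟨d, IsLocalization.integerNormalization (nonZeroDivisors ℤ) p,
    nonZeroDivisors.ne_zero hdm, ?_⟩
  have h1 : (algebraMap ℤ ℚ) = Int.castRingHom ℚ := rfl
  rw [h1] at hd
  rw [hd, ← smul_eq_C_mul]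
  ext n
  simp

end BZ

theorem t_BZ : S_BZ := by
  intro B hB N hN
  obtain ⟨a, b, hab⟩ := BZ.cop B hB N hN
  obtain ⟨d1, P1, hd1, hP1⟩ := BZ.den (a * B)
  obtain ⟨d2, P2, hd2, hP2⟩ := BZ.den b
  refine ⟨(d1 * d2).natAbs ^ 2, C (d1 * d2 ^ 2) * P1, C (d1 ^ 2 * d2) * P2, ?_, ?_, ?_⟩
  · exact pow_pos (Int.natAbs_pos.2 (mul_ne_zero hd1 hd2)) 2
  · have hD : (((d1 * d2).natAbs ^ 2 : ℕ) : ℚ) = ((d1 : ℚ) * d2) ^ 2 := by
      have h : (((d1 * d2).natAbs ^ 2 : ℕ) : ℤ) = (d1 * d2) ^ 2 := by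
        rw [Nat.cast_pow, Int.natAbs_sq]
      have h2 : ((((d1 * d2).natAbs ^ 2 : ℕ) : ℤ) : ℚ) = (((d1 * d2) ^ 2 : ℤ) : ℚ) := by rw [h]
      rw [Int.cast_natCast] at h2
      rw [h2]
      push_cast
      ring
    rw [hD, Polynomial.map_mul, Polynomial.map_mul, hP1, hP2, map_C, map_C]
    simp only [Int.coe_castRingHom, Int.cast_mul, Int.cast_pow, C_mul, C_pow]
    linear_combination (C (d1 : ℚ) ^ 2 * C (d2 : ℚ) ^ 2) * hab
  · rw [Polynomial.map_mul, hP1]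
    exact Dvd.intro_left (map (Int.castRingHom ℚ) (C (d1 * d2 ^ 2)) * (C (d1 : ℚ) * a)) (by ring)

end Pool.Agent.N978.BR
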