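import Pool.Agent.N978.BR.Stm

/-!
# BR/CY (helper570): roots of unity among the roots of the characteristic polynomial
-/

set_option autoImplicit false

namespace Pool.Agent.N978.BR.CY

open Module Polynomial

lemma dvd_fac {n k : ℕ} (hk : 0 < k) (h : k.totient ≤ n) : k ∣ (2 * n).factorial := by
  rw [Nat.dvd_iff_prime_pow_dvd_dvd]
  intro p a hp hpa
  rcases Nat.eq_zero_or_pos a with rfl | ha
  · simp
  apply Nat.dvd_factorial (pow_pos hp.pos a)
  have h1 : (p ^ a).totient ≤ n :=
    (Nat.le_of_dvd (Nat.totient_pos.2 hk) (Nat.totient_dvd_of_dvd hpa)).trans h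
  rw [Nat.totient_prime_pow hp ha] at h1
  have h2 : p ^ a = p ^ (a - 1) * p := by rw [← pow_succ, Nat.sub_add_cancel ha]
  have h3 : p ≤ 2 * (p - 1) := by
    have := hp.two_le
    omega
  calc p ^ a = p ^ (a - 1) * p := h2
    _ ≤ p ^ (a - 1) * (2 * (p - 1)) := Nat.mul_le_mul_left _ h3
    _ = 2 * (p ^ (a - 1) * (p - 1)) := by ring
    _ ≤ 2 * n := Nat.mul_le_mul_left _ h1

section

variable {K : Type} [Field K]

lemma incl {V : Type} [AddCommGroup V] [Module K V] (f : Module.End K V) (z : K) (M : ℕ)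
    (hz : z ^ M = 1) : f.maxGenEigenspace z ≤ (f ^ M).maxGenEigenspace 1 := by
  intro x hx
  rw [Module.End.mem_maxGenEigenspace] at hx ⊢
  obtain ⟨k, hk⟩ := hx
  refine ⟨k, ?_⟩
  have hdvd : (X - C z) ∣ (X ^ M - 1 : K[X]) := by
    rw [dvd_iff_isRoot]
    simp [hz]
  obtain ⟨q, hq⟩ := hdvd
  have h1 : f ^ M - (1 : K) • (1 : Module.End K V) = aeval f (X ^ M - 1 : K[X]) := by
    rw [map_sub, map_pow, aeval_X, map_one, one_smul]
  have h2 : f - z • (1 : Module.End K V) = aeval f (X - C z) := by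
    rw [map_sub, aeval_X, aeval_C, Algebra.algebraMap_eq_smul_one]
  have h3 : (f ^ M - (1 : K) • (1 : Module.End K V)) ^ k =
      aeval f (q ^ k) * (f - z • (1 : Module.End K V)) ^ k := by
    rw [h1, h2, ← map_pow, ← map_pow, ← map_mul, hq]
    congr 1
    rw [mul_pow, mul_comm]
  rw [h3, Module.End.mul_apply, hk, map_zero]

variable {n : ℕ} (A : Matrix (Fin n) (Fin n) K)

lemma mult_eq (z : K) :
    A.charpoly.rootMultiplicity z = finrank K (Module.End.maxGenEigenspace (Matrix.toLin' A) z) := by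
  rw [LinearMap.finrank_maxGenEigenspace_eq, Matrix.charpoly_toLin']

lemma single (M : ℕ) {z : K} (hz : z ^ M = 1) :
    A.charpoly.rootMultiplicity z ≤ (A ^ M).charpoly.rootMultiplicity 1 := by
  rw [mult_eq, mult_eq, Matrix.toLin'_pow]
  exact Submodule.finrank_mono (incl _ z M hz)

lemma double (M : ℕ) {z w : K} (hz : z ^ M = 1) (hw : w ^ M = 1) (hzw : z ≠ w) :
    A.charpoly.rootMultiplicity z + A.charpoly.rootMultiplicity w ≤
      (A ^ M).charpoly.rootMultiplicity 1 := by
  rw [mult_eq, mult_eq, mult_eq, Matrix.toLin'_pow]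
  have h1 : Disjoint (Module.End.maxGenEigenspace (Matrix.toLin' A) z) (Module.End.maxGenEigenspace (Matrix.toLin' A) w) :=
    Module.End.disjoint_genEigenspace _ hzw _ _
  have h2 := Submodule.finrank_sup_add_finrank_inf_eq (Module.End.maxGenEigenspace (Matrix.toLin' A) z)
    (Module.End.maxGenEigenspace (Matrix.toLin' A) w)
  rw [h1.eq_bot, finrank_bot, add_zero] at h2
  rw [← h2]
  exact Submodule.finrank_mono (sup_le (incl _ z M hz) (incl _ w M hw))

end

lemma cyc_of_not_free {P : ℚ[X]} (h : ¬ Free P) : ∃ k, 0 < k ∧ cyclotomic k ℚ ∣ P := by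
  unfold Free at h
  push Not at h
  obtain ⟨z, hz, N, hN, hzN⟩ := h
  have h1 : 0 < orderOf z := orderOf_pos_iff.2 (isOfFinOrder_iff_pow_eq_one.2 ⟨N, hN, hzN⟩)
  refine ⟨orderOf z, h1, ?_⟩
  rw [cyclotomic_eq_minpoly_rat (IsPrimitiveRoot.orderOf z) h1]
  exact minpoly.dvd ℚ z hz

section

variable {K : Type} [Field K] [CharZero K] [IsAlgClosed K]

lemma exists_prim {k : ℕ} (hk : 0 < k) : ∃ z : K, IsPrimitiveRoot z k := by
  have h1 : (cyclotomic k K).degree ≠ 0 := by
    rw [degree_cyclotomic]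
    have := Nat.totient_pos.2 hk
    exact_mod_cast this.ne'
  obtain ⟨z, hz⟩ := IsAlgClosed.exists_root _ h1
  have : NeZero (k : K) := ⟨by exact_mod_cast hk.ne'⟩
  exact ⟨z, isRoot_cyclotomic_iff.1 hz⟩

omit [IsAlgClosed K] in
lemma root_of_prim {B : ℚ[X]} {k : ℕ} (hk : 0 < k) (h : cyclotomic k ℚ ∣ B) {z : K}
    (hz : IsPrimitiveRoot z k) : (B.map (algebraMap ℚ K)).IsRoot z := by
  have h1 : cyclotomic k K ∣ B.map (algebraMap ℚ K) := by
    rw [← map_cyclotomic k (algebraMap ℚ K)]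
    exact Polynomial.map_dvd _ h
  exact (hz.isRoot_cyclotomic hk).dvd h1

end

end Pool.Agent.N978.BR.CY

namespace Pool.Agent.N978.BR

open Module Polynomial Matrix CY

/-- **CY** -/
theorem t_CY : S_CY := by
  intro n
  refine ⟨(2 * n).factorial, Nat.factorial_pos _, ?_⟩
  intro ℓ _ g P hgP
  obtain ⟨M, hM⟩ : ∃ M, M = (2 * n).factorial := ⟨_, rfl⟩
  rw [← hM]
  let K := AlgebraicClosure ℚ_[ℓ]
  let i : ℚ_[ℓ] →+* K := algebraMap ℚ_[ℓ] K
  have hK : CharZero K := charZero_of_injective_algebraMap (algebraMap ℚ_[ℓ] K).injective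
  obtain ⟨A, hA⟩ : ∃ A : Matrix (Fin n) (Fin n) K, A = i.mapMatrix g := ⟨_, rfl⟩
  have hAc : A.charpoly = P.map (algebraMap ℚ K) := by
    rw [hA, RingHom.mapMatrix_apply, charpoly_map, hgP, Polynomial.map_map]
    congr 1
  have hm : (A ^ M).charpoly.rootMultiplicity 1 = (g ^ M).charpoly.rootMultiplicity 1 := by
    rw [hA, ← map_pow, RingHom.mapMatrix_apply, charpoly_map,
      eq_rootMultiplicity_map (f := i) i.injective (1 : ℚ_[ℓ]), map_one]
  rw [← hm]
  have hP0 : P.map (algebraMap ℚ K) ≠ 0 := by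
    rw [← hAc]
    exact (charpoly_monic A).ne_zero
  have hPne : P ≠ 0 := fun h => hP0 (by rw [h, Polynomial.map_zero])
  have hdeg : P.natDegree = n := by
    have h1 := congrArg natDegree hAc
    rw [charpoly_natDegree_eq_dim, Fintype.card_fin,
      natDegree_map_eq_of_injective (algebraMap ℚ K).injective] at h1
    exact h1.symm
  have hkM : ∀ {k : ℕ}, 0 < k → cyclotomic k ℚ ∣ P → k ∣ M := by
    intro k hk h
    rw [hM]
    apply dvd_fac hk
    have h1 := natDegree_le_of_dvd h hPne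
    rwa [natDegree_cyclotomic, hdeg] at h1
  have hpow : ∀ {k : ℕ}, k ∣ M → ∀ z : K, IsPrimitiveRoot z k → z ^ M = 1 := by
    rintro k ⟨c, hc⟩ z hz
    rw [hc, pow_mul, hz.pow_eq_one, one_pow]
  have hone : ∀ {Q : K[X]} {z : K}, Q ≠ 0 → Q.IsRoot z → 1 ≤ Q.rootMultiplicity z :=
    fun hQ hz => (rootMultiplicity_pos hQ).2 hz
  constructor
  · intro h0
    by_contra hf
    obtain ⟨k, hk, hkP⟩ := cyc_of_not_free hf
    obtain ⟨z, hz⟩ := exists_prim (K := K) hk
    have h1 := single A M (hpow (hkM hk hkP) z hz)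
    rw [hAc] at h1
    have h2 := hone hP0 (root_of_prim hk hkP hz)
    omega
  · intro h1
    by_cases hf : Free P
    · exact Or.inl hf
    right
    obtain ⟨k, hk, hkP⟩ := cyc_of_not_free hf
    -- at most one root which is a root of unity
    have huniq : ∀ z w : K, z ^ M = 1 → w ^ M = 1 → (P.map (algebraMap ℚ K)).IsRoot z →
        (P.map (algebraMap ℚ K)).IsRoot w → z = w := by
      intro z w hz hw hzr hwr
      by_contra hne
      have h2 := double A M hz hw hne
      rw [hAc] at h2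
      have h3 := hone hP0 hzr
      have h4 := hone hP0 hwr
      omega
    obtain ⟨z, hz⟩ := exists_prim (K := K) hk
    have htot : k.totient = 1 := by
      by_contra hne
      have h2 : 1 < (primitiveRoots k K).card := by
        rw [hz.card_primitiveRoots]
        have := Nat.totient_pos.2 hk
        omega
      obtain ⟨u, hu, v, hv, huv⟩ := Finset.one_lt_card.1 h2
      rw [mem_primitiveRoots hk] at hu hv
      exact huv (huniq u v (hpow (hkM hk hkP) u hu) (hpow (hkM hk hkP) v hv)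
        (root_of_prim hk hkP hu) (root_of_prim hk hkP hv))
    have key : ∀ ε : ℤ, (ε = 1 ∨ ε = -1) → (X - C (ε : ℚ)) = cyclotomic k ℚ →
        ∃ (ε : ℤ) (B : ℚ[X]), (ε = 1 ∨ ε = -1) ∧ P = (X - C (ε : ℚ)) * B ∧ Free B := by
      intro ε hε hcyc
      rw [← hcyc] at hkP
      obtain ⟨B, hB⟩ := hkP
      refine ⟨ε, B, hε, hB, ?_⟩
      by_contra hfB
      obtain ⟨k', hk', hkB⟩ := cyc_of_not_free hfB
      obtain ⟨w, hw⟩ := exists_prim (K := K) hk'
      have hkP' : cyclotomic k' ℚ ∣ P := hkB.trans ⟨X - C (ε : ℚ), by rw [hB, mul_comm]⟩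
      have hkP : cyclotomic k ℚ ∣ P := by rw [← hcyc]; exact ⟨B, hB⟩
      have hwM := hpow (hkM hk' hkP') w hw
      have hzM := hpow (hkM hk hkP) z hz
      have hzw : z = w := huniq z w hzM hwM (root_of_prim hk hkP hz) (root_of_prim hk' hkP' hw)
      have h2 := single A M hwM
      rw [hAc, hB, Polynomial.map_mul] at h2
      rw [hB, Polynomial.map_mul] at hP0
      rw [rootMultiplicity_mul hP0] at h2
      have hP1 := left_ne_zero_of_mul hP0
      have hP2 := right_ne_zero_of_mul hP0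
      have h3 : 1 ≤ rootMultiplicity w ((X - C (ε : ℚ)).map (algebraMap ℚ K)) := by
        apply hone hP1
        rw [← hzw]
        exact root_of_prim hk (by rw [hcyc]) hz
      have h4 := hone hP2 (root_of_prim hk' hkB hw)
      omega
    rcases Nat.totient_eq_one_iff.1 htot with h | h
    · refine key 1 (Or.inl rfl) ?_
      rw [h, cyclotomic_one]
      simp
    · refine key (-1) (Or.inr rfl) ?_
      rw [h, cyclotomic_two]
      simp

end Pool.Agent.N978.BR
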