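import Mathlib

/-!
# Invariants in divisible groups with one bound for all primes: statements
-/

set_option autoImplicit false

namespace Pool.Agent.N978.BR

open Module Polynomial Matrix

/-- No complex root of `P` is a root of unity. -/
def Free (P : ℚ[X]) : Prop := ∀ z : ℂ, aeval z P = 0 → ∀ M : ℕ, 0 < M → z ^ M ≠ 1

/-- At most one complex root of `P`, counted with multiplicity, is a root of unity. -/
def NearlyFree (P : ℚ[X]) : Prop :=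
  Free P ∨ ∃ (ε : ℤ) (B : ℚ[X]), (ε = 1 ∨ ε = -1) ∧ P = (X - C (ε : ℚ)) * B ∧ Free B

/-- the vectors with coordinates in `ℤ_ℓ` -/
def IsInt {ℓ : ℕ} [Fact ℓ.Prime] {n : ℕ} (x : Fin n → ℚ_[ℓ]) : Prop := ∀ i, ‖x i‖ ≤ 1

/-- the matrices with entries in `ℤ_ℓ` -/
def IsIntM {ℓ : ℕ} [Fact ℓ.Prime] {n : ℕ} (A : Matrix (Fin n) (Fin n) ℚ_[ℓ]) : Prop :=
  ∀ i j, ‖A i j‖ ≤ 1

/-- **BZ** (a Bezout identity with integral coefficients). -/
def S_BZ : Prop := ∀ (B : ℚ[X]), Free B → ∀ N : ℕ, 0 < N → ∃ (D : ℕ) (A b : ℤ[X]), 0 < D ∧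
  A.map (Int.castRingHom ℚ) + b.map (Int.castRingHom ℚ) * (X ^ N - 1) = C (D : ℚ) ∧
  B ∣ A.map (Int.castRingHom ℚ)

/-- **UP** (powers of a unipotent integral matrix without Jordan blocks of size one). -/
def S_UP : Prop := ∀ (n : ℕ) (u : Matrix (Fin n) (Fin n) ℤ), IsNilpotent (u - 1) →
  (∃ (D : ℕ) (R S : Matrix (Fin n) (Fin n) ℤ), 0 < D ∧ (u - 1) * R + S * (u - 1) = (D : ℤ) • 1) →
  ∀ k : ℕ, 0 < k →
  ∃ (D : ℕ) (R S : Matrix (Fin n) (Fin n) ℤ), 0 < D ∧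
    (u ^ k - 1) * R + S * (u ^ k - 1) = (D : ℤ) • 1

/-- **LN** (an eigenvalue which is a simple root of the characteristic polynomial: two eigenvectors
are proportional). -/
def S_LN : Prop := ∀ (K : Type) [Field K] (n : ℕ) (g : Matrix (Fin n) (Fin n) K) (μ : K) (B : K[X]),
  g.charpoly = (X - C μ) * B → B.eval μ ≠ 0 → ∀ y w : Fin n → K, g.mulVec y = μ • y →
  g.mulVec w = μ • w → y ≠ 0 → ∃ c : K, w = c • y

/-- **LC** (the local bound): `g` and `h` are integral isometries of `J`; the space of the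
eigenvectors of `g` for `ε = ±1` has dimension one; `h - 1` satisfies `(h-1) R + S (h-1) = D₂`; and
`A + b (X^N - 1) = D₁` with `(g - ε) A(g) = 0`. -/
def S_LC : Prop := ∀ (ℓ : ℕ) [Fact ℓ.Prime] (n N : ℕ) (J g g' h h' R S : Matrix (Fin n) (Fin n) ℚ_[ℓ])
  (ε : ℤ) (A b : ℤ[X]) (δ D₁ D₂ : ℕ), 0 < N → Even N → (ε = 1 ∨ ε = -1) →
  IsIntM J → IsIntM g → IsIntM g' → IsIntM h → IsIntM h' → IsIntM R → IsIntM S → Jᵀ = J →
  g * g' = 1 → h * h' = 1 → gᵀ * J * g = J → hᵀ * J * h = J →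
  (∃ J' : Matrix (Fin n) (Fin n) ℚ_[ℓ], IsIntM J' ∧ J' * J = (δ : ℚ_[ℓ]) • 1) →
  (∀ y w : Fin n → ℚ_[ℓ], g.mulVec y = (ε : ℚ_[ℓ]) • y → g.mulVec w = (ε : ℚ_[ℓ]) • w → y ≠ 0 →
    ∃ c : ℚ_[ℓ], w = c • y) →
  (h - 1) * R + S * (h - 1) = (D₂ : ℚ_[ℓ]) • 1 →
  A.map (Int.castRingHom ℚ) + b.map (Int.castRingHom ℚ) * (X ^ N - 1) = C (D₁ : ℚ) →
  (g - (ε : ℚ_[ℓ]) • 1) * aeval g A = 0 →
  ∀ x : Fin n → ℚ_[ℓ], IsInt ((g ^ N).mulVec x - x) → IsInt (h.mulVec x - x) →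
    IsInt (((D₁ * D₁ * D₂ * δ : ℕ) : ℚ_[ℓ]) • x)

/-- **OP** (open condition): at most `e` eigenvalues of `g ^ M` are `1`. -/
def S_OP : Prop := ∀ (ℓ : ℕ) [Fact ℓ.Prime] (n M e : ℕ), IsOpen
  {g : Matrix (Fin n) (Fin n) ℚ_[ℓ] | (g ^ M).charpoly.rootMultiplicity 1 ≤ e}

/-- **CY** (cyclotomic roots): from the number of eigenvalues `1` of a suitable power to the roots
of unity among the roots of the characteristic polynomial, if it is rational. -/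
def S_CY : Prop := ∀ n : ℕ, ∃ M : ℕ, 0 < M ∧ ∀ (ℓ : ℕ) [Fact ℓ.Prime]
  (g : Matrix (Fin n) (Fin n) ℚ_[ℓ]) (P : ℚ[X]), g.charpoly = P.map (algebraMap ℚ ℚ_[ℓ]) →
  ((g ^ M).charpoly.rootMultiplicity 1 = 0 → Free P) ∧
  ((g ^ M).charpoly.rootMultiplicity 1 ≤ 1 → NearlyFree P)

end Pool.Agent.N978.BR
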