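import Mathlib
import Pool.Agent.N978.HP.Stm
import Pool.Agent.N978.HP.Base

/-!
# Proportions of rational points of the projective line, with finite sets of primes: statements
-/

set_option autoImplicit false

namespace Pool.Agent.N978.BR

open Pool.Agent.N978.HP

/-- The property `A` fails for at most the proportion `η` of the points of height at most `H`, for
all large `H`. -/
def FailsAtMost (η : ℝ) (A : Pt → Prop) : Prop :=
  ∃ H₀ : ℕ, ∀ H : ℕ, H₀ ≤ H → (Nat.card {t : Pt // t.height ≤ H ∧ ¬ A t} : ℝ) ≤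
    η * (Nat.card {t : Pt // t.height ≤ H} : ℝ)

/-- **FS** (finite sieve): if the sum of `1 / p` over the primes in `R` diverges, then for every
`η > 0` there is a finite part `R₀` of `R` such that all points outside of a proportion `η` are
congruent to `c p` modulo `p` for at least `k` of the primes `p` in `R₀`. -/
def S_FS : Prop := ∀ (R : Set ℕ) (c : ℕ → Pt), (∀ p ∈ R, p.Prime) →
  ¬ Summable (fun p : R => (1 : ℝ) / ((p : ℕ) : ℝ)) → ∀ (k : ℕ) (η : ℝ), 0 < η →
  ∃ R₀ : Finset ℕ, (∀ p ∈ R₀, p ∈ R) ∧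
    FailsAtMost η fun t => ∃ F : Finset ℕ, k ≤ F.card ∧ ∀ p ∈ F, p ∈ R₀ ∧ t.Cong p (c p)

/-- **EX** (exponents): the values of a binary form are divisible by a high power of a prime number
`p` only for a small proportion of the points. -/
def S_EX : Prop := ∀ C : MvPolynomial (Fin 2) ℤ, C ≠ 0 → (∃ d, C.IsHomogeneous d) → ∀ p : ℕ,
  p.Prime → ∀ η : ℝ, 0 < η → ∃ E : ℕ, FailsAtMost η fun t => ¬ (p : ℤ) ^ E ∣ t.val C

end Pool.Agent.N978.BR
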