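import Pool.Agent.N978.HP.Places
import Pool.Agent.N978.BR.Stm
import Pool.Agent.N978.BR.Stm2

/-!
# Families of varieties and the Tate modules of their Brauer groups
-/

set_option autoImplicit false

namespace Pool.Agent.N978.BR

open NumberField IsDedekindDomain Polynomial Matrix Pool.Agent.Y114.TF Pool.Agent.Y114.GF
  Pool.Agent.Y114.MU Pool.Agent.N978.HP

variable {Γ : Type} [Group Γ] [TopologicalSpace Γ] {n : ℕ}

/-- A matrix with entries in `ℤ_ℓ`, as a matrix with entries in `ℚ_ℓ`. -/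
noncomputable def rat {ℓ : ℕ} [Fact ℓ.Prime] (A : Matrix (Fin n) (Fin n) ℤ_[ℓ]) : Matrix (Fin n) (Fin n) ℚ_[ℓ] :=
  A.map fun x => (x : ℚ_[ℓ])

/-- A matrix with entries in `ℤ`, as a matrix with entries in `ℤ_ℓ`. -/
noncomputable def padic (ℓ : ℕ) [Fact ℓ.Prime] (A : Matrix (Fin n) (Fin n) ℤ) : Matrix (Fin n) (Fin n) ℤ_[ℓ] :=
  A.map fun x => (x : ℤ_[ℓ])

/-- A smooth projective family `X` over the open subset `U` of the projective line over `ℚ`, the
complement of the zeros of the binary form `D`: `Γ` is the fundamental group of `U`,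
`s t : Gal(ℚ) → Γ` is given by the rational point `t` of `U`, and `τ ℓ` is the action of `Γ` on the
Tate module `T_ℓ Br`, the quotient of `H²(ℤ_ℓ(1))` (modulo torsion) of the geometric generic fibre by
the classes of divisors, in a basis of the same quotient of the singular cohomology; its restriction
along `s t` is the quotient of `H²(ℤ_ℓ(1))` of the member `X_t` by the specializations of these
classes (that is `T_ℓ Br(X_t)`, unless `X_t` has more divisors). The family has good reduction outside of the divisors of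
`m`: if `p` does not divide `m` and the reduction of `t` modulo `p` is in `U`, then `p` is unramified
and the (geometric) Frobenius elements at `p` have the characteristic polynomial `P p t`, with
rational coefficients, which depends only on the reduction of `t` modulo `p`. -/
structure BrauerFamily (s : Pt → Gal(AlgebraicClosure ℚ/ℚ) →* Γ) (m : ℕ)
    (D : MvPolynomial (Fin 2) ℤ) (P : ℕ → Pt → ℚ[X])
    (τ : ∀ (ℓ : ℕ) [Fact ℓ.Prime], Γ →* Matrix (Fin n) (Fin n) ℤ_[ℓ]) : Prop where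
  pos : 0 < m
  form : ∃ d, D.IsHomogeneous d
  continuous_point : ∀ t, InU D t → Continuous (s t)
  continuous : ∀ (ℓ : ℕ) [Fact ℓ.Prime], Continuous (τ ℓ)
  unramified : ∀ (ℓ : ℕ) [Fact ℓ.Prime] (t : Pt) (p : ℕ), GoodAt m D t p → p ≠ ℓ →
    ∀ v, Above v p → ∀ Q, PrimeOver Q v → ∀ g, InInertiaAt Q g → τ ℓ (s t g) = 1
  frobenius : ∀ (ℓ : ℕ) [Fact ℓ.Prime] (t : Pt) (p : ℕ), GoodAt m D t p → p ≠ ℓ →
    ∀ v, Above v p → ∀ Q, PrimeOver Q v → ∀ g, IsFrobAt Q (q v) g →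
      (rat (τ ℓ (s t g⁻¹))).charpoly = (P p t).map (algebraMap ℚ ℚ_[ℓ])
  reduction : ∀ (p : ℕ) (t t' : Pt), GoodAt m D t p → GoodAt m D t' p → t.Cong p t' →
    P p t = P p t'

/-- At most `e` eigenvalues of `A`, counted with multiplicity, are roots of unity. -/
def UnityEigenvaluesLE {ℓ : ℕ} [Fact ℓ.Prime] (A : Matrix (Fin n) (Fin n) ℚ_[ℓ]) (e : ℕ) : Prop :=
  ∀ M : ℕ, 0 < M → (A ^ M).charpoly.rootMultiplicity 1 ≤ e

/-- The integral matrix `J` of nonzero determinant is symmetric and invariant (an integral multiple of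
the intersection form). -/
structure InvariantForm (τ : ∀ (ℓ : ℕ) [Fact ℓ.Prime], Γ →* Matrix (Fin n) (Fin n) ℤ_[ℓ])
    (J : Matrix (Fin n) (Fin n) ℤ) : Prop where
  symm : Jᵀ = J
  nondeg : J.det ≠ 0
  invariant : ∀ (ℓ : ℕ) [Fact ℓ.Prime] (g : Γ), (τ ℓ g)ᵀ * padic ℓ J * τ ℓ g = padic ℓ J

/-- The integral matrix `u` is unipotent, and there is no block of size one in its Jordan normal form:
every rational vector fixed by `u` is in the image of `u - 1`. -/
def NoBlockOfSizeOne (u : Matrix (Fin n) (Fin n) ℤ) : Prop :=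
  IsNilpotent (u - 1) ∧ ∀ x : Fin n → ℚ, ((u - 1).map (Int.cast : ℤ → ℚ)).mulVec x = 0 →
    ∃ y : Fin n → ℚ, x = ((u - 1).map (Int.cast : ℤ → ℚ)).mulVec y

/-- The unipotent local monodromy at the zeros of the binary form `C ≠ 0` is given by `u`: if `t` is a
point of `U` whose reduction modulo a prime number `p`, not dividing `m`, is a zero of `C`, then there
is an `e > 0`, with `p ^ e` dividing the value of `C` at `t`, such that for every prime number
`ℓ ≠ p` some element of the Galois group of `ℚ` (in the tame inertia group at `p`) acts on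
`T_ℓ Br(X_t)` as `u ^ e`, in a suitable basis. -/
def LocalMonodromy (s : Pt → Gal(AlgebraicClosure ℚ/ℚ) →* Γ) (m : ℕ)
    (D C : MvPolynomial (Fin 2) ℤ)
    (τ : ∀ (ℓ : ℕ) [Fact ℓ.Prime], Γ →* Matrix (Fin n) (Fin n) ℤ_[ℓ])
    (u : Matrix (Fin n) (Fin n) ℤ) : Prop :=
  C ≠ 0 ∧ (∃ d, 0 < d ∧ C.IsHomogeneous d) ∧
    ∀ (t : Pt) (p : ℕ), InU D t → p.Prime → ¬ p ∣ m → (p : ℤ) ∣ t.val C →
      ∃ e : ℕ, 0 < e ∧ (p : ℤ) ^ e ∣ t.val C ∧ ∀ (ℓ : ℕ) [Fact ℓ.Prime], ℓ ≠ p →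
        ∃ (γ : Gal(AlgebraicClosure ℚ/ℚ)) (c c' : Matrix (Fin n) (Fin n) ℤ_[ℓ]),
          c * c' = 1 ∧ c' * c = 1 ∧ τ ℓ (s t γ) = c * padic ℓ (u ^ e) * c'

/-- The natural number `N` kills, for every prime number `ℓ`, the elements of
`T_ℓ Br(X_t) ⊗ (ℚ_ℓ / ℤ_ℓ)` (the divisible part of the `ℓ`-primary part of the Brauer group of `X_t`
over the algebraic closure) fixed by the subgroup `Δ` of the Galois group. -/

def KillsInvariants (s : Pt → Gal(AlgebraicClosure ℚ/ℚ) →* Γ)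
    (τ : ∀ (ℓ : ℕ) [Fact ℓ.Prime], Γ →* Matrix (Fin n) (Fin n) ℤ_[ℓ]) (t : Pt)
    (Δ : Subgroup Gal(AlgebraicClosure ℚ/ℚ)) (N : ℕ) : Prop :=
  ∀ (ℓ : ℕ) [Fact ℓ.Prime] (x : Fin n → ℚ_[ℓ]),
    (∀ γ ∈ Δ, IsInt ((rat (τ ℓ (s t γ))).mulVec x - x)) → IsInt ((N : ℚ_[ℓ]) • x)

/-- For every prime number `ℓ` no element of `V_ℓ Br(X_t)` except zero is fixed by the subgroup `Δ`
of the Galois group. -/
def NoInvariants (s : Pt → Gal(AlgebraicClosure ℚ/ℚ) →* Γ)
    (τ : ∀ (ℓ : ℕ) [Fact ℓ.Prime], Γ →* Matrix (Fin n) (Fin n) ℤ_[ℓ]) (t : Pt)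
    (Δ : Subgroup Gal(AlgebraicClosure ℚ/ℚ)) : Prop :=
  ∀ (ℓ : ℕ) [Fact ℓ.Prime] (x : Fin n → ℚ_[ℓ]),
    (∀ γ ∈ Δ, (rat (τ ℓ (s t γ))).mulVec x = x) → x = 0

end Pool.Agent.N978.BR
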