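import Mathlib
import Pool.Agent.N978.BR.Stm2
import Pool.Agent.N592.HP.SV

/-!
# BR/EX (helper624): high powers of `p` in the values of a binary form
-/

set_option autoImplicit false

namespace Pool.Agent.N978.BR.EX

open Polynomial Finset
open Pool.Agent.N592.HP (psi psi_inj PH mem_box fin_PH lower card_residue card_eq)
open Pool.Agent.N978.HP

theorem split {p : ℤ} (hp : Prime p) (x y : ℕ) : ∀ A B : ℤ, p ^ (x + y) ∣ A * B →
    p ^ x ∣ A ∨ p ^ y ∣ B := by
  induction x with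
  | zero => intro A B _; left; simp
  | succ x ih =>
    intro A B h
    by_cases hA : p ∣ A
    · obtain ⟨A', rfl⟩ := hA
      have h1 : p ^ (x + y) ∣ A' * B := by
        have h2 : p * p ^ (x + y) ∣ p * (A' * B) := by
          have e1 : p ^ (x + 1 + y) = p * p ^ (x + y) := by ring
          have e2 : p * A' * B = p * (A' * B) := by ring
          rw [e1, e2] at h
          exact h
        exact (mul_dvd_mul_iff_left hp.ne_zero).1 h2
      rcases ih A' B h1 with h2 | h2
      · left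
        rw [pow_succ, mul_comm]
        exact mul_dvd_mul_left p h2
      · exact Or.inr h2
    · right
      exact (pow_dvd_pow p (by omega)).trans (hp.pow_dvd_of_dvd_mul_left _ hA h)

theorem not_dvd_mul {p : ℤ} (hp : Prime p) (v s : ℕ) {c b : ℤ} (hc : ¬ p ^ v ∣ c)
    (hb : ¬ p ^ s ∣ b) (k : ℕ) : ¬ p ^ (v + k * s) ∣ c * b ^ k := by
  induction k with
  | zero => simpa using hc
  | succ k ih =>
    intro h
    have e1 : v + (k + 1) * s = (v + k * s) + s := by ring
    have e2 : c * b ^ (k + 1) = (c * b ^ k) * b := by ring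
    rw [e1, e2] at h
    rcases split hp _ _ _ _ h with h1 | h1
    · exact ih h1
    · exact hb h1

/-- a power which makes an arithmetic progression thin -/
theorem exists_pow (p : ℕ) (hp : p.Prime) (ε : ℝ) (hε : 0 < ε) :
    ∃ E H₀ : ℕ, ∀ H : ℕ, H₀ ≤ H → ((2 * H / p ^ E + 1 : ℕ) : ℝ) ≤ ε * H := by
  obtain ⟨E, hE⟩ := exists_nat_gt (4 / ε)
  obtain ⟨H₀, hH₀⟩ := exists_nat_gt (2 / ε)
  refine ⟨E, H₀, fun H hH => ?_⟩
  have h1 : (E : ℝ) ≤ (p : ℝ) ^ E := by
    have h2 : E < p ^ E := Nat.lt_pow_self hp.one_lt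
    exact_mod_cast h2.le
  have h2 : 4 / ε < (p : ℝ) ^ E := hE.trans_le h1
  have hpos : (0 : ℝ) < (p : ℝ) ^ E := lt_trans (by positivity) h2
  rw [div_lt_iff₀ hε] at h2
  have h3 : 2 / ε < (H : ℝ) := hH₀.trans_le (by exact_mod_cast hH)
  rw [div_lt_iff₀ hε] at h3
  have hH0 : (0 : ℝ) ≤ H := Nat.cast_nonneg H
  have h4 : ((2 * H / p ^ E : ℕ) : ℝ) ≤ 2 * H / (p : ℝ) ^ E := by
    have := Nat.cast_div_le (α := ℝ) (m := 2 * H) (n := p ^ E)
    push_cast at this
    exact_mod_cast this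
  have h5 : 2 * (H : ℝ) / (p : ℝ) ^ E ≤ ε / 2 * H := by
    rw [div_le_iff₀ hpos]
    nlinarith
  push_cast
  linarith

/-- polynomials in one variable -/
theorem uni (p : ℕ) (hp : p.Prime) (j : ℕ) : ∀ (V : ℕ) (ε : ℝ), 0 < ε → ∃ E H₀ : ℕ, ∀ H : ℕ,
    H₀ ≤ H → ∀ f : ℤ[X], f.natDegree = j → ¬ (p : ℤ) ^ V ∣ f.leadingCoeff →
      (((Finset.Icc (-(H : ℤ)) H).filter (fun a => (p : ℤ) ^ E ∣ f.eval a)).card : ℝ) ≤ ε * H := by
  have hp' : Prime (p : ℤ) := Nat.prime_iff_prime_int.1 hp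
  induction j with
  | zero =>
    intro V ε hε
    refine ⟨V, 0, fun H _ f hf hV => ?_⟩
    have h1 : (Finset.Icc (-(H : ℤ)) H).filter (fun a => (p : ℤ) ^ V ∣ f.eval a) = ∅ := by
      rw [Finset.filter_eq_empty_iff]
      intro a _ h
      apply hV
      rw [Polynomial.eq_C_of_natDegree_eq_zero hf, eval_C] at h
      rw [Polynomial.leadingCoeff, hf]
      exact h
    rw [h1, Finset.card_empty, Nat.cast_zero]
    positivity
  | succ j ih =>
    intro V ε hε
    obtain ⟨E₂, H₂, h2⟩ := ih V (ε / 2) (by positivity)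
    obtain ⟨E₁, H₁, h1⟩ := exists_pow p hp (ε / 2) (by positivity)
    refine ⟨E₁ + E₂, max H₁ H₂, fun H hH f hf hV => ?_⟩
    have hH1 := h1 H (le_trans (le_max_left _ _) hH)
    rcases Finset.eq_empty_or_nonempty
      ((Finset.Icc (-(H : ℤ)) H).filter (fun a => (p : ℤ) ^ (E₁ + E₂) ∣ f.eval a)) with h0 | h0
    · rw [h0, Finset.card_empty, Nat.cast_zero]
      positivity
    · obtain ⟨a', ha'⟩ := h0
      rw [Finset.mem_filter] at ha'
      obtain ⟨g, hg⟩ : ∃ g, g = f /ₘ (X - C a') := ⟨_, rfl⟩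
      have hfdeg : f.degree ≠ 0 := by
        intro h
        have := Polynomial.natDegree_eq_of_degree_eq_some (n := 0) (by simpa using h)
        omega
      have hgl : g.leadingCoeff = f.leadingCoeff := by
        rw [hg]; exact leadingCoeff_divByMonic_X_sub_C f hfdeg a'
      have hgd : g.natDegree = j := by
        rw [hg, natDegree_divByMonic f (monic_X_sub_C a'), natDegree_X_sub_C, hf]
        rfl
      have hev : ∀ a, f.eval a - f.eval a' = (a - a') * g.eval a := by
        intro a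
        have h3 := modByMonic_add_div f (X - C a')
        rw [modByMonic_X_sub_C_eq_C_eval, ← hg] at h3
        have h4 := congrArg (fun q => eval a q) h3
        simp only [eval_add, eval_mul, eval_sub, eval_X, eval_C] at h4
        linarith
      have hH2 := h2 H (le_trans (le_max_right _ _) hH) g hgd (by rw [hgl]; exact hV)
      have hsub : (Finset.Icc (-(H : ℤ)) H).filter (fun a => (p : ℤ) ^ (E₁ + E₂) ∣ f.eval a) ⊆
          (Finset.Icc (-(H : ℤ)) H).filter (fun a => ((p ^ E₁ : ℕ) : ℤ) ∣ a - a') ∪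
          (Finset.Icc (-(H : ℤ)) H).filter (fun a => (p : ℤ) ^ E₂ ∣ g.eval a) := by
        intro a ha
        rw [Finset.mem_filter] at ha
        rw [Finset.mem_union, Finset.mem_filter, Finset.mem_filter]
        have h3 : (p : ℤ) ^ (E₁ + E₂) ∣ (a - a') * g.eval a := by
          rw [← hev]
          exact dvd_sub ha.2 ha'.2
        rcases split hp' _ _ _ _ h3 with h4 | h4
        · left
          exact ⟨ha.1, by exact_mod_cast h4⟩
        · right
          exact ⟨ha.1, h4⟩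
      have h3 := (Finset.card_le_card hsub).trans (Finset.card_union_le _ _)
      have h4 := card_residue H (p ^ E₁) (Nat.pos_of_ne_zero (pow_ne_zero _ hp.ne_zero)) a'
      have h5 : (((Finset.Icc (-(H : ℤ)) H).filter
          (fun a => (p : ℤ) ^ (E₁ + E₂) ∣ f.eval a)).card : ℝ) ≤
          ((2 * H / p ^ E₁ + 1 : ℕ) : ℝ) + (((Finset.Icc (-(H : ℤ)) H).filter
          (fun a => (p : ℤ) ^ E₂ ∣ g.eval a)).card : ℝ) := by
        exact_mod_cast h3.trans (Nat.add_le_add_right h4 _)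
      linarith

/-! ### binary forms -/

/-- the exponent `(i, d - i)` -/
noncomputable def ex (d i : ℕ) : Fin 2 →₀ ℕ := Finsupp.single 0 i + Finsupp.single 1 (d - i)

theorem ex_zero (d i : ℕ) : ex d i 0 = i := by simp [ex]

theorem ex_one (d i : ℕ) : ex d i 1 = d - i := by simp [ex]

theorem ex_of {d : ℕ} {D : MvPolynomial (Fin 2) ℤ} (hD : D.IsHomogeneous d) {s : Fin 2 →₀ ℕ}
    (hs : s ∈ D.support) : s 0 ≤ d ∧ ex d (s 0) = s := by
  have h1 := hD (MvPolynomial.mem_support_iff.1 hs)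
  have h2 : s 0 + s 1 = d := by
    rw [Finsupp.weight_apply, Finsupp.sum_fintype _ _ (fun _ => by simp)] at h1
    simpa [Fin.sum_univ_two] using h1
  refine ⟨by omega, ?_⟩
  ext i
  fin_cases i
  · exact ex_zero d _
  · show ex d (s 0) 1 = s 1
    rw [ex_one]; omega

/-- the polynomial `D(X, b)` -/
noncomputable def PP (D : MvPolynomial (Fin 2) ℤ) (d : ℕ) (b : ℤ) : ℤ[X] :=
  ∑ i ∈ Finset.range (d + 1), C (D.coeff (ex d i) * b ^ (d - i)) * X ^ i

theorem PP_eval {d : ℕ} {D : MvPolynomial (Fin 2) ℤ} (hD : D.IsHomogeneous d) (t : Pt) :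
    t.val D = (PP D d t.b).eval t.a := by
  unfold Pt.val PP
  rw [MvPolynomial.eval_eq', eval_finsetSum]
  have h1 : D.support ⊆ (Finset.range (d + 1)).image (ex d) := by
    intro s hs
    obtain ⟨h2, h3⟩ := ex_of hD hs
    exact Finset.mem_image.2 ⟨s 0, Finset.mem_range.2 (by omega), h3⟩
  rw [Finset.sum_subset h1]
  · rw [Finset.sum_image]
    · refine Finset.sum_congr rfl fun i _ => ?_
      rw [Fin.prod_univ_two, ex_zero, ex_one]
      simp only [Matrix.cons_val_zero, Matrix.cons_val_one, eval_mul, eval_C, eval_pow, eval_X]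
      ring
    · intro i _ k _ h
      have := congrArg (fun s : Fin 2 →₀ ℕ => s 0) h
      simpa [ex_zero] using this
  · intro s _ hs
    rw [MvPolynomial.notMem_support_iff.1 hs, zero_mul]

theorem PP_coeff (D : MvPolynomial (Fin 2) ℤ) (d : ℕ) (b : ℤ) (k : ℕ) :
    (PP D d b).coeff k = if k ≤ d then D.coeff (ex d k) * b ^ (d - k) else 0 := by
  unfold PP
  rw [finsetSum_coeff]
  simp only [coeff_C_mul_X_pow]
  rw [Finset.sum_ite_eq]
  simp only [Finset.mem_range, Nat.lt_succ_iff]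

end Pool.Agent.N978.BR.EX

namespace Pool.Agent.N978.BR

open Polynomial Finset
open Pool.Agent.N592.HP (psi psi_inj PH mem_box fin_PH lower card_residue card_eq)
open Pool.Agent.N978.HP
open EX

theorem t_EX : S_EX := by
  classical
  rintro D hD0 ⟨d, hD⟩ p hp η hη
  have hp' : Prime (p : ℤ) := Nat.prime_iff_prime_int.1 hp
  -- the degree in the first variable
  obtain ⟨j, hjd, hj0, hjm⟩ : ∃ j ≤ d, D.coeff (ex d j) ≠ 0 ∧
      ∀ k ≤ d, j < k → D.coeff (ex d k) = 0 := by
    obtain ⟨s, hs⟩ := MvPolynomial.support_nonempty.2 hD0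
    obtain ⟨h2, h3⟩ := ex_of hD hs
    obtain ⟨j, hj, hjm⟩ := Finset.exists_max_image
      ((Finset.range (d + 1)).filter fun k => D.coeff (ex d k) ≠ 0) id
      ⟨s 0, by
        rw [Finset.mem_filter, Finset.mem_range, h3]
        exact ⟨by omega, MvPolynomial.mem_support_iff.1 hs⟩⟩
    rw [Finset.mem_filter, Finset.mem_range] at hj
    refine ⟨j, by omega, hj.2, fun k hk hjk => ?_⟩
    by_contra hne
    have h4 := hjm k (Finset.mem_filter.2 ⟨Finset.mem_range.2 (by omega), hne⟩)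
    simp only [id] at h4
    omega
  -- the exponents
  obtain ⟨v, hv⟩ : ∃ v : ℕ, ¬ (p : ℤ) ^ v ∣ D.coeff (ex d j) := by
    refine ⟨(D.coeff (ex d j)).natAbs, fun h => ?_⟩
    have h1 := Int.natAbs_dvd_natAbs.2 h
    rw [Int.natAbs_pow, Int.natAbs_natCast] at h1
    have h2 := Nat.le_of_dvd (Int.natAbs_pos.2 hj0) h1
    have h3 : (D.coeff (ex d j)).natAbs < p ^ (D.coeff (ex d j)).natAbs :=
      Nat.lt_pow_self hp.one_lt
    omega
  obtain ⟨s, H₁, hs⟩ := exists_pow p hp (η / 24) (by positivity)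
  obtain ⟨E, H₂, hE⟩ := uni p hp j (v + (d - j) * s) (η / 24) (by positivity)
  refine ⟨E, max 1 (max H₁ H₂), fun H hH => ?_⟩
  have hH0 : 1 ≤ H := (le_max_left _ _).trans hH
  have hH1 := hs H (((le_max_left _ _).trans (le_max_right _ _)).trans hH)
  have hH2 := hE H (((le_max_right _ _).trans (le_max_right _ _)).trans hH)
  have hHR : (1 : ℝ) ≤ H := by exact_mod_cast hH0
  -- the pairs
  have h1 : Nat.card {t : Pt // t.height ≤ H ∧ ¬ ¬ (p : ℤ) ^ E ∣ t.val D} ≤
      (((Finset.Icc (-(H : ℤ)) H) ×ˢ (Finset.Icc (-(H : ℤ)) H)).filter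
        (fun x : ℤ × ℤ => (p : ℤ) ^ E ∣ (PP D d x.2).eval x.1)).card := by
    rw [card_eq, ← Set.ncard_coe_finset]
    refine Set.ncard_le_ncard_of_injOn psi ?_ psi_inj.injOn (Finset.finite_toSet _)
    rintro t ⟨ht1, ht2⟩
    rw [Finset.mem_coe, Finset.mem_filter]
    refine ⟨mem_box ht1, ?_⟩
    rw [not_not, PP_eval hD] at ht2
    exact ht2
  have h2 : ((((Finset.Icc (-(H : ℤ)) H) ×ˢ (Finset.Icc (-(H : ℤ)) H)).filter
        (fun x : ℤ × ℤ => (p : ℤ) ^ E ∣ (PP D d x.2).eval x.1)).card : ℝ) =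
      ∑ b ∈ Finset.Icc (-(H : ℤ)) H, (((Finset.Icc (-(H : ℤ)) H).filter
        (fun a => (p : ℤ) ^ E ∣ (PP D d b).eval a)).card : ℝ) := by
    rw [Finset.card_filter, Finset.sum_product_right]
    push_cast
    refine Finset.sum_congr rfl fun b _ => ?_
    rw [Finset.card_filter]
    push_cast
    rfl
  have hcard : (((Finset.Icc (-(H : ℤ)) H).card : ℕ) : ℝ) = 2 * H + 1 := by
    rw [Int.card_Icc]
    have : ((H : ℤ) + 1 - -(H : ℤ)).toNat = 2 * H + 1 := by omega
    rw [this]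
    push_cast
    ring
  have h3 : ∀ b ∈ Finset.Icc (-(H : ℤ)) H, (((Finset.Icc (-(H : ℤ)) H).filter
      (fun a => (p : ℤ) ^ E ∣ (PP D d b).eval a)).card : ℝ) ≤
      (if ((p ^ s : ℕ) : ℤ) ∣ b - 0 then (2 * H + 1 : ℝ) else 0) + η / 24 * H := by
    intro b _
    split_ifs with hb
    · have h4 : (((Finset.Icc (-(H : ℤ)) H).filter
          (fun a => (p : ℤ) ^ E ∣ (PP D d b).eval a)).card : ℝ) ≤ 2 * H + 1 := by
        rw [← hcard]
        exact_mod_cast Finset.card_filter_le _ _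
      have h5 : 0 ≤ η / 24 * (H : ℝ) := by positivity
      linarith
    · rw [zero_add]
      have hb' : ¬ (p : ℤ) ^ s ∣ b := by
        rw [sub_zero] at hb
        exact_mod_cast hb
      have hb0 : b ≠ 0 := by
        rintro rfl
        exact hb' (dvd_zero _)
      have hc : (PP D d b).coeff j = D.coeff (ex d j) * b ^ (d - j) := by
        rw [PP_coeff, if_pos hjd]
      have hc0 : (PP D d b).coeff j ≠ 0 := by
        rw [hc]
        exact mul_ne_zero hj0 (pow_ne_zero _ hb0)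
      have hdeg : (PP D d b).natDegree = j := by
        refine natDegree_eq_of_le_of_coeff_ne_zero ?_ hc0
        rw [natDegree_le_iff_coeff_eq_zero]
        intro k hk
        rw [PP_coeff]
        split_ifs with hkd
        · rw [hjm k hkd hk, zero_mul]
        · rfl
      refine hH2 (PP D d b) hdeg ?_
      rw [Polynomial.leadingCoeff, hdeg, hc]
      exact not_dvd_mul hp' v s hv hb' (d - j)
  have h4 := Finset.sum_le_sum h3
  rw [Finset.sum_add_distrib, ← Finset.sum_filter, Finset.sum_const, Finset.sum_const,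
    nsmul_eq_mul, nsmul_eq_mul, hcard] at h4
  have h5 := card_residue H (p ^ s) (Nat.pos_of_ne_zero (pow_ne_zero _ hp.ne_zero)) 0
  have h6 : (((Finset.Icc (-(H : ℤ)) H).filter (fun a => ((p ^ s : ℕ) : ℤ) ∣ a - 0)).card : ℝ) ≤
      η / 24 * H := le_trans (by exact_mod_cast h5) hH1
  have h7 : (Nat.card {t : Pt // t.height ≤ H ∧ ¬ ¬ (p : ℤ) ^ E ∣ t.val D} : ℝ) ≤
      η * ((H : ℝ) ^ 2 / 4) := by
    have h8 : (Nat.card {t : Pt // t.height ≤ H ∧ ¬ ¬ (p : ℤ) ^ E ∣ t.val D} : ℝ) ≤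
        ((((Finset.Icc (-(H : ℤ)) H) ×ˢ (Finset.Icc (-(H : ℤ)) H)).filter
        (fun x : ℤ × ℤ => (p : ℤ) ^ E ∣ (PP D d x.2).eval x.1)).card : ℝ) := by
      exact_mod_cast h1
    rw [h2] at h8
    have h9 : (((Finset.Icc (-(H : ℤ)) H).filter
        (fun a => ((p ^ s : ℕ) : ℤ) ∣ a - 0)).card : ℝ) * (2 * H + 1) ≤
        η / 24 * H * (2 * H + 1) := mul_le_mul_of_nonneg_right h6 (by positivity)
    have h10 : η / 24 * (H : ℝ) * (2 * H + 1) ≤ η / 24 * H * (3 * H) :=
      mul_le_mul_of_nonneg_left (by linarith) (by positivity)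
    nlinarith
  refine h7.trans ?_
  rw [card_eq]
  exact mul_le_mul_of_nonneg_left (lower H) hη.le

end Pool.Agent.N978.BR
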