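import Pool.Agent.N978.BR.Stm2
import Pool.Agent.N592.HP.SV

/-!
# BR/FS (helper787, project BR of helper978): finite sieve on the rational points of the projective line

The proof is the one of `main_claim` (helper592, `N592/HP/SV`), with a finite set of primes.
-/

set_option autoImplicit false

namespace Pool.Agent.N978.BR

open Finset Pool.Agent.N978.HP

namespace FS

open Pool.Agent.N592.HP

theorem main (R : Set ℕ) (c : ℕ → Pt) (hR : ∀ p ∈ R, p.Prime)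
    (hns : ¬ Summable (fun p : R => (1 : ℝ) / ((p : ℕ) : ℝ))) (k : ℕ) :
    ∀ (G : Finset ℕ) (ε : ℝ), 0 < ε → ∃ R₀ : Finset ℕ, (∀ p ∈ R₀, p ∈ R) ∧ Disjoint R₀ G ∧
      ∃ H0 : ℕ, ∀ H, H0 ≤ H →
      (({t : Pt | t.height ≤ H ∧ ¬ ∃ F : Finset ℕ, k ≤ F.card ∧
        ∀ p ∈ F, p ∈ R₀ ∧ t.Cong p (c p)} : Set Pt).ncard : ℝ) ≤ ε * ((PH H).ncard : ℝ) := by
  classical
  induction k with
  | zero =>
    intro G ε hε
    refine ⟨∅, by simp, Finset.disjoint_empty_left _, 0, fun H _ => ?_⟩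
    have h1 : ({t : Pt | t.height ≤ H ∧ ¬ ∃ F : Finset ℕ, 0 ≤ F.card ∧
        ∀ p ∈ F, p ∈ (∅ : Finset ℕ) ∧ t.Cong p (c p)} : Set Pt) = ∅ := by
      rw [Set.eq_empty_iff_forall_notMem]
      rintro t ⟨_, h⟩
      exact h ⟨∅, Nat.zero_le _, by simp⟩
    rw [h1, Set.ncard_empty]
    simp only [Nat.cast_zero]
    positivity
  | succ k ih =>
    intro G ε hε
    obtain ⟨F1, hF1, hd, hs⟩ := exists_small R hR hns G (ε / 72) (by positivity)
    obtain ⟨R₁, hR₁, hdis₁, H0, hH0⟩ := ih (G ∪ F1) (ε / 2) (by positivity)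
    rw [Finset.disjoint_union_right] at hdis₁
    refine ⟨R₁ ∪ F1, ?_, ?_, max H0 (∏ p ∈ F1, p), fun H hH => ?_⟩
    · intro p hp
      rcases Finset.mem_union.1 hp with hp | hp
      · exact hR₁ p hp
      · exact hF1 p hp
    · rw [Finset.disjoint_union_left]
      exact ⟨hdis₁.1, hd⟩
    have hH1 : H0 ≤ H := le_trans (le_max_left _ _) hH
    have hH2 : ∏ p ∈ F1, p ≤ H := le_trans (le_max_right _ _) hH
    have h1 := hH0 H hH1
    have h2 := upper c F1 (fun p hp => hR p (hF1 p hp)) H hH2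
    have hsub : ({t : Pt | t.height ≤ H ∧ ¬ ∃ F : Finset ℕ, k + 1 ≤ F.card ∧
        ∀ p ∈ F, p ∈ R₁ ∪ F1 ∧ t.Cong p (c p)} : Set Pt) ⊆
        {t : Pt | t.height ≤ H ∧ ¬ ∃ F : Finset ℕ, k ≤ F.card ∧
          ∀ p ∈ F, p ∈ R₁ ∧ t.Cong p (c p)} ∪
        {t : Pt | t.height ≤ H ∧ ∀ p ∈ F1, ¬ t.Cong p (c p)} := by
      rintro t ⟨ht, hn⟩
      by_cases hc : ∀ p ∈ F1, ¬ t.Cong p (c p)
      · exact Or.inr ⟨ht, hc⟩
      · left
        refine ⟨ht, ?_⟩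
        rintro ⟨F, hk, hF⟩
        apply hn
        push Not at hc
        obtain ⟨p, hp, hpc⟩ := hc
        have hpF : p ∉ F := fun h => (Finset.disjoint_left.1 hdis₁.2 (hF p h).1) hp
        refine ⟨insert p F, ?_, ?_⟩
        · rw [Finset.card_insert_of_notMem hpF]
          omega
        · intro q hq
          rcases Finset.mem_insert.1 hq with rfl | hq
          · exact ⟨Finset.mem_union_right _ hp, hpc⟩
          · exact ⟨Finset.mem_union_left _ (hF q hq).1, (hF q hq).2⟩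
    have hfin : ({t : Pt | t.height ≤ H ∧ ¬ ∃ F : Finset ℕ, k ≤ F.card ∧
          ∀ p ∈ F, p ∈ R₁ ∧ t.Cong p (c p)} ∪
        {t : Pt | t.height ≤ H ∧ ∀ p ∈ F1, ¬ t.Cong p (c p)} : Set Pt).Finite :=
      (fin_PH H).subset (Set.union_subset (fun t ht => ht.1) fun t ht => ht.1)
    have h3 := (Set.ncard_le_ncard hsub hfin).trans (Set.ncard_union_le _ _)
    have h4 : (0 : ℝ) ≤ ((PH H).ncard : ℝ) := Nat.cast_nonneg _
    calc _ ≤ (({t : Pt | t.height ≤ H ∧ ¬ ∃ F : Finset ℕ, k ≤ F.card ∧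
          ∀ p ∈ F, p ∈ R₁ ∧ t.Cong p (c p)} : Set Pt).ncard : ℝ) +
        (({t : Pt | t.height ≤ H ∧ ∀ p ∈ F1, ¬ t.Cong p (c p)} : Set Pt).ncard : ℝ) := by
          exact_mod_cast h3
      _ ≤ ε / 2 * ((PH H).ncard : ℝ) +
          36 * (∏ p ∈ F1, (1 - 1 / (p : ℝ))) * ((PH H).ncard : ℝ) := add_le_add h1 h2
      _ ≤ _ := by nlinarith

end FS

/-- **FS** -/
theorem t_FS : S_FS := by
  intro R c hR hns k η hη
  obtain ⟨R₀, hR₀, -, H0, hH0⟩ := FS.main R c hR hns k ∅ η hη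
  refine ⟨R₀, hR₀, H0, fun H hH => ?_⟩
  exact hH0 H hH

end Pool.Agent.N978.BR
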