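import Mathlib
import Pool.Agent.N978.BR.Stm

/-!
# Project BR (helper978), leaf OP (helper247): the open condition
-/

set_option autoImplicit false

namespace Pool.Agent.N978.BR

open Module Polynomial Matrix

namespace OP

variable {K : Type} [Field K] [TopologicalSpace K] [IsTopologicalRing K]

theorem cont_coeff (n i : ℕ) :
    Continuous fun h : Matrix (Fin n) (Fin n) K => h.charpoly.coeff i := by
  have h1 : ∀ h : Matrix (Fin n) (Fin n) K, h.charpoly.coeff i =
      MvPolynomial.eval (fun p : Fin n × Fin n => h p.1 p.2)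
        ((Matrix.charpoly.univ K (Fin n)).coeff i) := by
    intro h
    have h2 := Matrix.charpoly.univ_coeff_eval₂Hom (Fin n) (RingHom.id K)
      (fun p : Fin n × Fin n => h p.1 p.2) i
    have h3 : Matrix.of (Function.curry fun p : Fin n × Fin n => h p.1 p.2) = h := by
      ext a b; rfl
    rw [h3] at h2
    exact h2.symm
  simp_rw [h1]
  refine (MvPolynomial.continuous_eval _).comp ?_
  refine continuous_pi fun p => ?_
  exact (continuous_apply p.2).comp (continuous_apply p.1)

theorem cont_eval (n m : ℕ) (x : K) :
    Continuous fun h : Matrix (Fin n) (Fin n) K => (derivative^[m] h.charpoly).eval x := by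
  have h1 : ∀ h : Matrix (Fin n) (Fin n) K, (derivative^[m] h.charpoly).eval x =
      ∑ i ∈ Finset.range (n + 1), ((i + m).descFactorial m • h.charpoly.coeff (i + m)) * x ^ i := by
    intro h
    have h2 : (derivative^[m] h.charpoly).natDegree < n + 1 := by
      have h3 := Polynomial.natDegree_iterate_derivative h.charpoly m
      rw [Matrix.charpoly_natDegree_eq_dim, Fintype.card_fin] at h3
      omega
    rw [Polynomial.eval_eq_sum_range' h2]
    refine Finset.sum_congr rfl fun i _ => ?_
    rw [Polynomial.coeff_iterate_derivative]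
  simp_rw [h1, nsmul_eq_mul]
  refine continuous_finsetSum _ fun i _ => ?_
  exact (continuous_const.mul (cont_coeff n (i + m))).mul continuous_const

end OP

theorem t_OP : S_OP := by
  intro ℓ _ n M e
  have h1 : {g : Matrix (Fin n) (Fin n) ℚ_[ℓ] | (g ^ M).charpoly.rootMultiplicity 1 ≤ e} =
      ⋃ m : ℕ, ⋃ _ : m ≤ e, {g : Matrix (Fin n) (Fin n) ℚ_[ℓ] |
        (derivative^[m] (g ^ M).charpoly).eval 1 ≠ 0} := by
    ext g
    simp only [Set.mem_ofPred_eq, Set.mem_iUnion, exists_prop]
    rw [← not_lt, Polynomial.lt_rootMultiplicity_iff_isRoot_iterate_derivative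
      (Matrix.charpoly_monic _).ne_zero]
    push Not
    rfl
  rw [h1]
  refine isOpen_iUnion fun m => isOpen_iUnion fun _ => ?_
  have h2 : Continuous fun g : Matrix (Fin n) (Fin n) ℚ_[ℓ] =>
      (derivative^[m] (g ^ M).charpoly).eval 1 := (OP.cont_eval n m 1).comp (continuous_pow M)
  exact isOpen_ne.preimage h2

end Pool.Agent.N978.BR
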