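import Pool.Agent.N978.BR.Local
import Pool.Agent.N978.BR.OP
import Pool.Agent.N978.BR.CY
import Pool.Agent.N978.BR.FS
import Pool.Agent.N978.BR.EX
import Pool.Agent.N978.HP.Pos
import Pool.Agent.N279.HP.DV
import Pool.Agent.Y114.GF.MainS

/-!
# Primes with a good Frobenius element, and proportions
-/

set_option autoImplicit false

namespace Pool.Agent.N978.BR

open NumberField IsDedekindDomain Polynomial Matrix Filter Topology Pool.Agent.Y114.TF
  Pool.Agent.Y114.GF Pool.Agent.Y114.MU Pool.Agent.N978.HP LC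

variable {Γ : Type} [Group Γ] [TopologicalSpace Γ] {n : ℕ}
  {s : Pt → Gal(AlgebraicClosure ℚ/ℚ) →* Γ} {m : ℕ} {D : MvPolynomial (Fin 2) ℤ}
  {P : ℕ → Pt → ℚ[X]} {τ : ∀ (ℓ : ℕ) [Fact ℓ.Prime], Γ →* Matrix (Fin n) (Fin n) ℤ_[ℓ]}

/-- The primes at which the Frobenius element of the member at `t₀` is good have positive lower
density. -/
theorem BrauerFamily.density (h : BrauerFamily s m D P τ) {t₀ : Pt} (ht₀ : InU D t₀) (ℓ₀ : ℕ)
    [hℓ₀ : Fact ℓ₀.Prime] (σ : Gal(AlgebraicClosure ℚ/ℚ)) (e : ℕ)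
    (hσ : UnityEigenvaluesLE (rat (τ ℓ₀ (s t₀ σ))) e) :
    PosDensity {p : ℕ | GoodAt m D t₀ p ∧ (e = 0 → Free (P p t₀)) ∧
      (e ≤ 1 → NearlyFree (P p t₀))} := by
  obtain ⟨M, hM, hCY⟩ := t_CY n
  have hcont : Continuous fun γ => rat (τ ℓ₀ (s t₀ γ)) := by
    have h1 : Continuous fun γ => τ ℓ₀ (s t₀ γ) :=
      (h.continuous ℓ₀).comp (h.continuous_point t₀ ht₀)
    exact h1.matrix_map continuous_subtype_val
  have hO := (t_OP ℓ₀ n M e).preimage hcont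
  have hB : ({p : ℕ | p.Prime ∧ ¬ GoodAt m D t₀ p} ∪ {ℓ₀} : Set ℕ).Finite :=
    (badPrimes_finite h.pos ht₀).union (Set.finite_singleton _)
  have hpos : PosDensity _ := primes_pos _ hO ⟨σ, hσ M hM⟩ _ hB
  refine hpos.mono ?_
  rintro p ⟨hp, hpB, v, hpv, φ, ⟨Q, hQ, hQv, hφ⟩, hφO⟩
  have hgood : GoodAt m D t₀ p := by
    by_contra hcon
    exact hpB (Or.inl ⟨hp, hcon⟩)
  have hne : p ≠ ℓ₀ := fun h' => hpB (Or.inr h')
  have hch := h.frobenius ℓ₀ t₀ p hgood hne v hpv Q ⟨hQ.isPrime, hQv⟩ φ hφ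
  have h2 := hCY ℓ₀ _ _ hch
  refine ⟨hgood, fun he => h2.1 ?_, fun he => h2.2 ?_⟩
  · subst he
    exact Nat.le_zero.1 hφO
  · exact le_trans hφO he

theorem failsAtMost_mono {η : ℝ} {A B : Pt → Prop} (hA : FailsAtMost η A) (h : ∀ t, A t → B t) :
    FailsAtMost η B := by
  obtain ⟨H₀, hH₀⟩ := hA
  refine ⟨H₀, fun H hH => le_trans ?_ (hH₀ H hH)⟩
  have hf2 : Finite {t : Pt // t.height ≤ H ∧ ¬ A t} :=
    finite_of_imp (finite_height H) fun t ht => ht.1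
  have h1 : Nat.card {t : Pt // t.height ≤ H ∧ ¬ B t} ≤ Nat.card {t : Pt // t.height ≤ H ∧ ¬ A t} :=
    card_le_of_imp hf2 fun t ht => ⟨ht.1, fun hA => ht.2 (h t hA)⟩
  exact_mod_cast h1

theorem failsAtMost_and {η η' : ℝ} {A B : Pt → Prop} (hA : FailsAtMost η A)
    (hB : FailsAtMost η' B) : FailsAtMost (η + η') fun t => A t ∧ B t := by
  obtain ⟨H₁, hH₁⟩ := hA
  obtain ⟨H₂, hH₂⟩ := hB
  refine ⟨max H₁ H₂, fun H hH => ?_⟩
  have h1 := hH₁ H ((le_max_left _ _).trans hH)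
  have h2 := hH₂ H ((le_max_right _ _).trans hH)
  have hsub : ({t : Pt | t.height ≤ H ∧ ¬ (A t ∧ B t)} : Set Pt) ⊆
      {t : Pt | t.height ≤ H ∧ ¬ A t} ∪ {t : Pt | t.height ≤ H ∧ ¬ B t} := by
    rintro t ⟨ht, hn⟩
    by_cases h : A t
    · exact Or.inr ⟨ht, fun hb => hn ⟨h, hb⟩⟩
    · exact Or.inl ⟨ht, h⟩
  have hfin : ({t : Pt | t.height ≤ H} : Set Pt).Finite := finite_height H
  have hfin2 : ({t : Pt | t.height ≤ H ∧ ¬ A t} ∪ {t : Pt | t.height ≤ H ∧ ¬ B t} : Set Pt).Finite :=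
    hfin.subset (Set.union_subset (fun t ht => ht.1) fun t ht => ht.1)
  have h3 := (Set.ncard_le_ncard hsub hfin2).trans (Set.ncard_union_le _ _)
  have h4 : ((({t : Pt | t.height ≤ H ∧ ¬ (A t ∧ B t)} : Set Pt).ncard : ℕ) : ℝ) ≤
      (({t : Pt | t.height ≤ H ∧ ¬ A t} : Set Pt).ncard : ℝ) +
      (({t : Pt | t.height ≤ H ∧ ¬ B t} : Set Pt).ncard : ℝ) := by exact_mod_cast h3
  rw [add_mul]
  exact h4.trans (add_le_add h1 h2)

theorem failsAtMost_of_le {η η' : ℝ} {A : Pt → Prop} (hA : FailsAtMost η A) (h : η ≤ η') :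
    FailsAtMost η' A := by
  obtain ⟨H₁, hH₁⟩ := hA
  exact ⟨H₁, fun H hH => (hH₁ H hH).trans (mul_le_mul_of_nonneg_right h (Nat.cast_nonneg _))⟩

theorem failsAtMost_true {η : ℝ} (hη : 0 ≤ η) {A : Pt → Prop} (hA : ∀ t, A t) :
    FailsAtMost η A := by
  refine ⟨0, fun H _ => ?_⟩
  have h1 : IsEmpty {t : Pt // t.height ≤ H ∧ ¬ A t} := ⟨fun t => t.2.2 (hA _)⟩
  rw [Nat.card_eq_zero.2 (Or.inl h1), Nat.cast_zero]
  positivity

theorem failsAtMost_finset {η : ℝ} (hη : 0 ≤ η) (R : Finset ℕ) {A : ℕ → Pt → Prop}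
    (hA : ∀ p ∈ R, FailsAtMost η (A p)) :
    FailsAtMost ((R.card : ℝ) * η) fun t => ∀ p ∈ R, A p t := by
  classical
  induction R using Finset.induction_on with
  | empty => exact failsAtMost_true (by simp) fun t p hp => absurd hp (Finset.notMem_empty p)
  | insert a R ha ih =>
    have h1 := failsAtMost_and (hA a (Finset.mem_insert_self a R))
      (ih fun p hp => hA p (Finset.mem_insert_of_mem hp))
    refine failsAtMost_mono (failsAtMost_of_le h1 ?_) ?_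
    · rw [Finset.card_insert_of_notMem ha]
      push_cast
      linarith
    · rintro t ⟨h2, h3⟩ p hp
      rcases Finset.mem_insert.1 hp with rfl | hp
      · exact h2
      · exact h3 p hp

end Pool.Agent.N978.BR
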