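import Pool.Agent.N978.BR.Stm3

/-!
# BR/GI: integral matrices whose kernel is contained in the image (helper490)
-/

set_option autoImplicit false

namespace Pool.Agent.N978.BR.GI

/-- A generalized inverse of an endomorphism of a vector space. -/
theorem exists_ginv {K V : Type*} [Field K] [AddCommGroup V] [Module K V] (f : V →ₗ[K] V) :
    ∃ T : V →ₗ[K] V, ∀ x, f (T (f x)) = f x := by
  obtain ⟨g, hg⟩ := f.rangeRestrict.exists_rightInverse_of_surjective f.range_rangeRestrict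
  obtain ⟨T, hT⟩ := LinearMap.exists_extend g
  refine ⟨T, fun x => ?_⟩
  have h1 : T (f x) = g ⟨f x, LinearMap.mem_range_self f x⟩ := by
    have := LinearMap.congr_fun hT ⟨f x, LinearMap.mem_range_self f x⟩
    simpa using this
  have h2 := LinearMap.congr_fun hg ⟨f x, LinearMap.mem_range_self f x⟩
  have h3 := congrArg Subtype.val h2
  rw [h1]
  simpa using h3

/-- If the kernel is contained in the image, then `1 = f R + S f`. -/
theorem exists_split {K V : Type*} [Field K] [AddCommGroup V] [Module K V] (f : V →ₗ[K] V)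
    (h : ∀ x, f x = 0 → ∃ y, x = f y) :
    ∃ R S : V →ₗ[K] V, f ∘ₗ R + S ∘ₗ f = LinearMap.id := by
  obtain ⟨T, hT⟩ := exists_ginv f
  refine ⟨T ∘ₗ (LinearMap.id - T ∘ₗ f), T, ?_⟩
  ext x
  have h0 : f (x - T (f x)) = 0 := by
    rw [map_sub, hT, sub_self]
  obtain ⟨y, hy⟩ := h _ h0
  have h1 : f (T (x - T (f x))) = x - T (f x) := by
    rw [hy, hT]
  simp only [LinearMap.add_apply, LinearMap.comp_apply, LinearMap.sub_apply, LinearMap.id_apply]
  rw [h1]
  abel

/-- Clearing denominators. -/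
theorem exists_clear (n : ℕ) (M : Matrix (Fin n) (Fin n) ℚ) :
    ∃ (D : ℕ) (R : Matrix (Fin n) (Fin n) ℤ), 0 < D ∧
      R.map (Int.cast : ℤ → ℚ) = (D : ℚ) • M := by
  classical
  refine ⟨∏ p : Fin n × Fin n, (M p.1 p.2).den,
    fun i j => (M i j).num * ∏ p ∈ Finset.univ.erase (i, j), ((M p.1 p.2).den : ℤ), ?_, ?_⟩
  · exact Finset.prod_pos fun p _ => (M p.1 p.2).den_pos
  · ext i j
    simp only [Matrix.map_apply, Matrix.smul_apply, smul_eq_mul]
    rw [← Finset.mul_prod_erase Finset.univ (fun p : Fin n × Fin n => (M p.1 p.2).den)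
      (Finset.mem_univ (i, j))]
    push_cast
    have hd : ((M i j).den : ℚ) ≠ 0 := by exact_mod_cast (M i j).den_nz
    have hq : ((M i j).den : ℚ) * M i j = (M i j).num := by
      rw [mul_comm]; exact Rat.mul_den_eq_num _
    rw [mul_right_comm, hq]
    all_goals
      show ((((M i j).num * ∏ p ∈ Finset.univ.erase (i, j), ((M p.1 p.2).den : ℤ)) : ℤ) : ℚ) = _
      push_cast
      rfl

end Pool.Agent.N978.BR.GI

namespace Pool.Agent.N978.BR

theorem t_GI : S_GI := by
  intro n N h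
  obtain ⟨R0, S0, h0⟩ := GI.exists_split (Matrix.toLin' (N.map (Int.cast : ℤ → ℚ))) (by
    intro x hx
    rw [Matrix.toLin'_apply] at hx
    obtain ⟨y, hy⟩ := h x hx
    exact ⟨y, by rw [Matrix.toLin'_apply]; exact hy⟩)
  have h1 : N.map (Int.cast : ℤ → ℚ) * LinearMap.toMatrix' R0 +
      LinearMap.toMatrix' S0 * N.map (Int.cast : ℤ → ℚ) = 1 := by
    have := congrArg LinearMap.toMatrix' h0
    rw [map_add, LinearMap.toMatrix'_comp, LinearMap.toMatrix'_comp,
      LinearMap.toMatrix'_toLin', LinearMap.toMatrix'_id] at this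
    exact this
  obtain ⟨D1, R, hD1, hR⟩ := GI.exists_clear n (LinearMap.toMatrix' R0)
  obtain ⟨D2, S, hD2, hS⟩ := GI.exists_clear n (LinearMap.toMatrix' S0)
  refine ⟨D1 * D2, (D2 : ℤ) • R, (D1 : ℤ) • S, Nat.mul_pos hD1 hD2, ?_⟩
  have hinj : Function.Injective (fun M : Matrix (Fin n) (Fin n) ℤ => M.map (Int.cast : ℤ → ℚ)) :=
    Matrix.map_injective Int.cast_injective
  apply hinj
  have e1 : ∀ A B : Matrix (Fin n) (Fin n) ℤ, (A * B).map (Int.cast : ℤ → ℚ) =
      A.map (Int.cast : ℤ → ℚ) * B.map (Int.cast : ℤ → ℚ) := by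
    intro A B
    exact Matrix.map_mul (f := Int.castRingHom ℚ)
  have e2 : ∀ A B : Matrix (Fin n) (Fin n) ℤ, (A + B).map (Int.cast : ℤ → ℚ) =
      A.map (Int.cast : ℤ → ℚ) + B.map (Int.cast : ℤ → ℚ) := by
    intro A B
    ext i j
    simp
  have e3 : ∀ (c : ℤ) (A : Matrix (Fin n) (Fin n) ℤ), (c • A).map (Int.cast : ℤ → ℚ) =
      (c : ℚ) • A.map (Int.cast : ℤ → ℚ) := by
    intro c A
    ext i j
    simp only [Matrix.map_apply, Matrix.smul_apply, smul_eq_mul, Int.cast_mul]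
  have e4 : (1 : Matrix (Fin n) (Fin n) ℤ).map (Int.cast : ℤ → ℚ) = 1 := by
    exact Matrix.map_one _ (by simp) (by simp)
  show (N * ((D2 : ℤ) • R) + ((D1 : ℤ) • S) * N).map (Int.cast : ℤ → ℚ) =
    ((((D1 * D2 : ℕ) : ℤ)) • (1 : Matrix (Fin n) (Fin n) ℤ)).map (Int.cast : ℤ → ℚ)
  rw [e2, e1, e1, e3, e3, e3, e4, hR, hS, ← h1]
  push_cast
  simp only [Matrix.mul_smul, Matrix.smul_mul, smul_add, smul_smul, mul_comm]

end Pool.Agent.N978.BR
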