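import Pool.Agent.N978.BR.Dens
import Pool.Agent.N978.BR.GI

/-!
# Uniform boundedness for almost all members
-/

set_option autoImplicit false

namespace Pool.Agent.N978.BR

open NumberField IsDedekindDomain Polynomial Matrix Filter Topology Pool.Agent.Y114.TF
  Pool.Agent.Y114.GF Pool.Agent.Y114.MU Pool.Agent.N978.HP LC

variable {Γ : Type} [Group Γ] [TopologicalSpace Γ] {n : ℕ}
  {s : Pt → Gal(AlgebraicClosure ℚ/ℚ) →* Γ} {m : ℕ} {D : MvPolynomial (Fin 2) ℤ}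
  {P : ℕ → Pt → ℚ[X]} {τ : ∀ (ℓ : ℕ) [Fact ℓ.Prime], Γ →* Matrix (Fin n) (Fin n) ℤ_[ℓ]}

/-- The `k`-th powers of all elements of the Galois group fix `x` modulo integral vectors. -/
def PowFix (s : Pt → Gal(AlgebraicClosure ℚ/ℚ) →* Γ)
    (τ : ∀ (ℓ : ℕ) [Fact ℓ.Prime], Γ →* Matrix (Fin n) (Fin n) ℤ_[ℓ]) (t : Pt) (k ℓ : ℕ)
    [Fact ℓ.Prime] (x : Fin n → ℚ_[ℓ]) : Prop :=
  ∀ φ : Gal(AlgebraicClosure ℚ/ℚ), IsInt ((rat (τ ℓ (s t (φ ^ k)))).mulVec x - x)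

/-- the exponent for subgroups of index at most `d` -/
def ex (d : ℕ) : ℕ := 2 * d.factorial

theorem ex_pos (d : ℕ) : 0 < ex d := Nat.mul_pos two_pos (Nat.factorial_pos d)

theorem ex_even (d : ℕ) : Even (ex d) := even_two_mul _

theorem powFix_of_subgroup {t : Pt} {Δ : Subgroup Gal(AlgebraicClosure ℚ/ℚ)} (h0 : Δ.index ≠ 0)
    {d : ℕ} (hd : Δ.index ≤ d) {ℓ : ℕ} [Fact ℓ.Prime] {x : Fin n → ℚ_[ℓ]}
    (hx : ∀ γ ∈ Δ, IsInt ((rat (τ ℓ (s t γ))).mulVec x - x)) : PowFix s τ t (ex d) ℓ x := by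
  intro φ
  obtain ⟨k, hk0, hk, hkΔ⟩ := Subgroup.exists_pow_mem_of_index_ne_zero h0 φ
  have h1 : k ∣ ex d :=
    Dvd.dvd.mul_left (Nat.dvd_factorial (Nat.pos_of_ne_zero (by omega)) (hk.trans hd)) 2
  obtain ⟨j, hj⟩ := h1
  refine hx _ ?_
  rw [hj, pow_mul]
  exact Δ.pow_mem hkΔ j

theorem isInt_of_dvd {ℓ : ℕ} [Fact ℓ.Prime] {a b : ℕ} (h : a ∣ b) {x : Fin n → ℚ_[ℓ]}
    (hx : IsInt ((a : ℚ_[ℓ]) • x)) : IsInt ((b : ℚ_[ℓ]) • x) := by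
  obtain ⟨c, rfl⟩ := h
  have h1 := inat c hx
  rw [smul_smul, mul_comm, ← Nat.cast_mul] at h1
  exact h1

/-- a Frobenius element at `p` -/
theorem exists_frob_at (h : BrauerFamily s m D P τ) {t : Pt} {p : ℕ} (hg : GoodAt m D t p) :
    ∃ φ : Gal(AlgebraicClosure ℚ/ℚ), ∀ (ℓ : ℕ) [Fact ℓ.Prime], p ≠ ℓ →
      (rat (τ ℓ (s t φ))).charpoly = (P p t).map (algebraMap ℚ ℚ_[ℓ]) := by
  obtain ⟨v, hv⟩ := exists_above (F := ℚ) hg.1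
  obtain ⟨Q, σ, hQ, hQv, hσ⟩ := Pool.Agent.W571.FM.frob_cm v
  exact ⟨σ⁻¹, fun ℓ _ hne => h.frobenius ℓ t p hg hne v hv Q ⟨hQ.isPrime, hQv⟩ σ hσ⟩

theorem BrauerFamily.even (h : BrauerFamily s m D P τ) {p : ℕ} {t₀ : Pt}
    (hfree : Free (P p t₀)) (d : ℕ) : ∃ N : ℕ, 0 < N ∧ ∀ t, GoodAt m D t p → P p t = P p t₀ →
      ∀ (ℓ : ℕ) [Fact ℓ.Prime], p ≠ ℓ → ∀ x : Fin n → ℚ_[ℓ], PowFix s τ t (ex d) ℓ x →
        IsInt ((N : ℚ_[ℓ]) • x) := by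
  obtain ⟨D₁, A, b, hD₁, hAb, hPA⟩ := t_BZ (P p t₀) hfree (ex d) (ex_pos d)
  refine ⟨D₁, hD₁, fun t hg hP ℓ _ hne x hx => ?_⟩
  obtain ⟨φ, hφ⟩ := exists_frob_at h hg
  have h1 := hφ ℓ hne
  rw [hP] at h1
  refine even_bound (rat_int _) h1 hAb hPA ?_
  have h2 := hx φ
  rw [map_pow, map_pow, rat_pow] at h2
  exact h2

theorem BrauerFamily.odd (h : BrauerFamily s m D P τ) {J : Matrix (Fin n) (Fin n) ℤ}
    (hJ : InvariantForm τ J) {u : Matrix (Fin n) (Fin n) ℤ} (hu : NoBlockOfSizeOne u) {p : ℕ}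
    {t₀ : Pt} (hnf : NearlyFree (P p t₀)) (d e : ℕ) (he : 0 < e) : ∃ N : ℕ, 0 < N ∧
      ∀ t, GoodAt m D t p → P p t = P p t₀ → ∀ (ℓ : ℕ) [Fact ℓ.Prime], p ≠ ℓ →
        (∃ (γ : Gal(AlgebraicClosure ℚ/ℚ)) (c c' : Matrix (Fin n) (Fin n) ℤ_[ℓ]),
          c * c' = 1 ∧ c' * c = 1 ∧ τ ℓ (s t γ) = c * padic ℓ (u ^ e) * c') →
        ∀ x : Fin n → ℚ_[ℓ], PowFix s τ t (ex d) ℓ x → IsInt ((N : ℚ_[ℓ]) • x) := by
  rcases hnf with hfree | ⟨ε, B, hε, hPB, hB⟩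
  · obtain ⟨N, hN, hN'⟩ := h.even hfree d
    exact ⟨N, hN, fun t hg hP ℓ _ hne _ x hx => hN' t hg hP ℓ hne x hx⟩
  obtain ⟨D₁, A, b, hD₁, hAb, hBA⟩ := t_BZ B hB (ex d) (ex_pos d)
  obtain ⟨D₂, R, S, hD₂, hRS⟩ := t_UP n u hu.1 (t_GI n (u - 1) hu.2) (e * ex d)
    (Nat.mul_pos he (ex_pos d))
  obtain ⟨J', hJ'⟩ : ∃ J' : Matrix (Fin n) (Fin n) ℤ, J' * J = ((J.det.natAbs : ℕ) : ℤ) • 1 := by
    rcases Int.natAbs_eq J.det with h1 | h1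
    · exact ⟨J.adjugate, by rw [Matrix.adjugate_mul, ← h1]⟩
    · refine ⟨-J.adjugate, ?_⟩
      rw [Matrix.neg_mul, Matrix.adjugate_mul, ← neg_smul]
      congr 1
      omega
  refine ⟨D₁ * D₁ * D₂ * J.det.natAbs, ?_, fun t hg hP ℓ _ hne hγ x hx => ?_⟩
  · exact Nat.mul_pos (Nat.mul_pos (Nat.mul_pos hD₁ hD₁) hD₂) (Int.natAbs_pos.2 hJ.nondeg)
  obtain ⟨φ, hφ⟩ := exists_frob_at h hg
  obtain ⟨γ, c, c', hcc, hcc', hγ⟩ := hγ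
  have h1 := hφ ℓ hne
  rw [hP, hPB] at h1
  exact odd_bound (T := (τ ℓ).comp (s t)) hJ.symm (fun g => hJ.invariant ℓ (s t g)) hJ' (φ := φ)
    (γ := γ) hε hB h1 (ex_pos d) (ex_even d) hcc hcc' hγ hRS hAb hBA (hx φ) (hx γ)

/-- **Uniform boundedness for almost all members.** -/
theorem main (h : BrauerFamily s m D P τ) {t₀ : Pt} (ht₀ : InU D t₀) (ℓ₀ : ℕ)
    [hℓ₀ : Fact ℓ₀.Prime] (σ : Gal(AlgebraicClosure ℚ/ℚ))
    (hσ : UnityEigenvaluesLE (rat (τ ℓ₀ (s t₀ σ))) 0 ∨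
      (UnityEigenvaluesLE (rat (τ ℓ₀ (s t₀ σ))) 1 ∧ ∃ (J u : Matrix (Fin n) (Fin n) ℤ)
        (C : MvPolynomial (Fin 2) ℤ), InvariantForm τ J ∧ NoBlockOfSizeOne u ∧
          LocalMonodromy s m D C τ u)) (η : ℝ) (hη : 0 < η) :
    ∃ N : ℕ → ℕ, (∀ d, 0 < N d) ∧ FailsAtMost η fun t => InU D t ∧
      ∀ (d : ℕ) (Δ : Subgroup Gal(AlgebraicClosure ℚ/ℚ)), Δ.index ≠ 0 → Δ.index ≤ d →
        KillsInvariants s τ t Δ (N d) := by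
  classical
  rcases hσ with hσ | ⟨hσ, J, u, C, hJ, hu, hC⟩
  · -- no eigenvalue of `σ` is a root of unity
    obtain ⟨δ, hδ, hev⟩ := h.density ht₀ ℓ₀ σ 0 hσ
    have hns := Pool.Agent.N279.HP.t_DV _ δ (fun p hp => hp.1.1) hδ hev
    obtain ⟨R₀, hR₀, hF⟩ := t_FS _ (fun _ => t₀) (fun p hp => hp.1.1) hns 2 η hη
    have hN : ∀ p d : ℕ, ∃ N : ℕ, 0 < N ∧ (p ∈ R₀ → ∀ t, GoodAt m D t p → P p t = P p t₀ →
        ∀ (ℓ : ℕ) [Fact ℓ.Prime], p ≠ ℓ → ∀ x : Fin n → ℚ_[ℓ], PowFix s τ t (ex d) ℓ x →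
          IsInt ((N : ℚ_[ℓ]) • x)) := by
      intro p d
      by_cases hp : p ∈ R₀
      · obtain ⟨N, hN, hN'⟩ := h.even ((hR₀ p hp).2.1 rfl) d
        exact ⟨N, hN, fun _ => hN'⟩
      · exact ⟨1, one_pos, fun hp' => absurd hp' hp⟩
    choose N hN0 hN' using hN
    refine ⟨fun d => ∏ p ∈ R₀, N p d, fun d => Finset.prod_pos fun p _ => hN0 p d, ?_⟩
    refine failsAtMost_mono hF ?_
    rintro t ⟨F, hF2, hFp⟩
    have hgood : ∀ p ∈ F, GoodAt m D t p ∧ P p t = P p t₀ := by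
      intro p hp
      have h1 := hR₀ p (hFp p hp).1
      have h2 := good_of_cong h.form h1.1 (hFp p hp).2
      exact ⟨h2, h.reduction p t t₀ h2 h1.1 (hFp p hp).2⟩
    refine ⟨?_, fun d Δ h0 hd ℓ _ x hx => ?_⟩
    · obtain ⟨p, hp, -⟩ := exists_ne hF2 0
      exact inU_of_good (hgood p hp).1
    · obtain ⟨p, hp, hne⟩ := exists_ne hF2 ℓ
      exact isInt_of_dvd (Finset.dvd_prod_of_mem (fun p => N p d) (hFp p hp).1)
        (hN' p d (hFp p hp).1 t (hgood p hp).1 (hgood p hp).2 ℓ hne x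
          (powFix_of_subgroup h0 hd hx))
  · -- one eigenvalue of `σ` is a root of unity, and the local monodromy
    obtain ⟨δ, hδ, hev⟩ := h.density ht₀ ℓ₀ σ 1 hσ
    have hns := Pool.Agent.N279.HP.t_DV _ δ (fun p hp => hp.1.1) hδ hev
    obtain ⟨R₀, hR₀, hF⟩ := t_FS _ (fun _ => t₀) (fun p hp => hp.1.1) hns 2 (η / 4) (by positivity)
    obtain ⟨hC0, hCd, hCm⟩ := hC
    obtain ⟨δ', hδ', hev'⟩ := posDensity_zeros hCd h.pos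
    have hns' := Pool.Agent.N279.HP.t_DV _ δ' (fun p hp => hp.1) hδ' hev'
    obtain ⟨R₁, hR₁, hF'⟩ := t_FS _
      (fun p => if hp : ∃ c : Pt, (p : ℤ) ∣ c.val C then hp.choose else t₀)
      (fun p hp => hp.1) hns' 2 (η / 4) (by positivity)
    obtain ⟨d₀, hd₀, hCh⟩ := hCd
    have hE : ∀ p : ℕ, ∃ E : ℕ, p ∈ R₁ →
        FailsAtMost (η / 4 / ((R₁.card : ℝ) + 1)) fun t => ¬ (p : ℤ) ^ E ∣ t.val C := by
      intro p
      by_cases hp : p ∈ R₁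
      · obtain ⟨E, hE⟩ := t_EX C hC0 ⟨d₀, hCh⟩ p (hR₁ p hp).1 (η / 4 / ((R₁.card : ℝ) + 1))
          (by positivity)
        exact ⟨E, fun _ => hE⟩
      · exact ⟨0, fun hp' => absurd hp' hp⟩
    choose E hE using hE
    have hE' := failsAtMost_finset (η := η / 4 / ((R₁.card : ℝ) + 1)) (by positivity) R₁
      (A := fun p t => ¬ (p : ℤ) ^ E p ∣ t.val C) fun p hp => hE p hp
    have hle : (R₁.card : ℝ) * (η / 4 / ((R₁.card : ℝ) + 1)) ≤ η / 4 := by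
      rw [← mul_div_assoc, div_le_iff₀ (by positivity)]
      nlinarith [hη, (Nat.cast_nonneg R₁.card : (0 : ℝ) ≤ (R₁.card : ℝ))]
    have hall := failsAtMost_and (failsAtMost_and hF hF') (failsAtMost_of_le hE' hle)
    have hN : ∀ p d e : ℕ, ∃ N : ℕ, 0 < N ∧ (p ∈ R₀ → 0 < e → ∀ t, GoodAt m D t p →
        P p t = P p t₀ → ∀ (ℓ : ℕ) [Fact ℓ.Prime], p ≠ ℓ →
        (∃ (γ : Gal(AlgebraicClosure ℚ/ℚ)) (c c' : Matrix (Fin n) (Fin n) ℤ_[ℓ]),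
          c * c' = 1 ∧ c' * c = 1 ∧ τ ℓ (s t γ) = c * padic ℓ (u ^ e) * c') →
        ∀ x : Fin n → ℚ_[ℓ], PowFix s τ t (ex d) ℓ x → IsInt ((N : ℚ_[ℓ]) • x)) := by
      intro p d e
      by_cases hp : p ∈ R₀ ∧ 0 < e
      · obtain ⟨N, hN, hN'⟩ := h.odd hJ hu ((hR₀ p hp.1).2.2 le_rfl) d e hp.2
        exact ⟨N, hN, fun _ _ => hN'⟩
      · exact ⟨1, one_pos, fun hp' he' => absurd ⟨hp', he'⟩ hp⟩
    choose N hN0 hN' using hN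
    refine ⟨fun d => ∏ p ∈ R₀, ∏ e ∈ Finset.range (R₁.sup E + 1), N p d e,
      fun d => Finset.prod_pos fun p _ => Finset.prod_pos fun e _ => hN0 p d e, ?_⟩
    refine failsAtMost_mono (failsAtMost_of_le hall (by linarith)) ?_
    rintro t ⟨⟨⟨F, hF2, hFp⟩, ⟨F', hF2', hFp'⟩⟩, hex⟩
    have hgood : ∀ p ∈ F, GoodAt m D t p ∧ P p t = P p t₀ := by
      intro p hp
      have h1 := hR₀ p (hFp p hp).1
      have h2 := good_of_cong h.form h1.1 (hFp p hp).2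
      exact ⟨h2, h.reduction p t t₀ h2 h1.1 (hFp p hp).2⟩
    have htU : InU D t := by
      obtain ⟨p, hp, -⟩ := exists_ne hF2 0
      exact inU_of_good (hgood p hp).1
    refine ⟨htU, fun d Δ h0 hd ℓ _ x hx => ?_⟩
    obtain ⟨p, hp, hne⟩ := exists_ne hF2 ℓ
    obtain ⟨p', hp', hne'⟩ := exists_ne hF2' ℓ
    obtain ⟨hp'R, hp'c⟩ := hFp' p' hp'
    obtain ⟨hp'p, hp'm, hp'C⟩ := hR₁ p' hp'R
    rw [dif_pos hp'C] at hp'c
    have hdiv : (p' : ℤ) ∣ t.val C := dvd_of_cong hp'p hCh hp'c hp'C.choose_spec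
    obtain ⟨e, he0, hediv, hloc⟩ := hCm t p' htU hp'p hp'm hdiv
    have helt : e < E p' := by
      by_contra hcon
      push Not at hcon
      exact hex p' hp'R ((pow_dvd_pow _ hcon).trans hediv)
    have hemem : e ∈ Finset.range (R₁.sup E + 1) := by
      rw [Finset.mem_range]
      have := Finset.le_sup (f := E) hp'R
      omega
    have hdvd : N p d e ∣ ∏ p ∈ R₀, ∏ e ∈ Finset.range (R₁.sup E + 1), N p d e :=
      (Finset.dvd_prod_of_mem (fun e => N p d e) hemem).trans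
        (Finset.dvd_prod_of_mem (fun p => ∏ e ∈ Finset.range (R₁.sup E + 1), N p d e) (hFp p hp).1)
    exact isInt_of_dvd hdvd (hN' p d e (hFp p hp).1 he0 t (hgood p hp).1 (hgood p hp).2 ℓ hne
      (hloc ℓ (Ne.symm hne')) x (powFix_of_subgroup h0 hd hx))

/-- The vectors fixed by `Δ` are zero, if a natural number kills the invariants. -/
theorem invariants_zero {t : Pt} {Δ : Subgroup Gal(AlgebraicClosure ℚ/ℚ)} {N : ℕ} (hN : 0 < N)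
    (h : KillsInvariants s τ t Δ N) (ℓ : ℕ) [hℓ : Fact ℓ.Prime] (x : Fin n → ℚ_[ℓ])
    (hx : ∀ γ ∈ Δ, (rat (τ ℓ (s t γ))).mulVec x = x) : x = 0 := by
  have h1 : ∀ k : ℕ, IsInt ((N : ℚ_[ℓ]) • ((ℓ : ℚ_[ℓ]) ^ k)⁻¹ • x) := by
    intro k
    refine h ℓ _ fun γ hγ => ?_
    rw [mulVec_smul, hx γ hγ, sub_self]
    intro i
    rw [Pi.zero_apply, norm_zero]
    exact zero_le_one
  funext i
  by_contra hne
  have hN0 : (N : ℚ_[ℓ]) ≠ 0 := Nat.cast_ne_zero.2 hN.ne'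
  have hpos : 0 < ‖(N : ℚ_[ℓ]) * x i‖ := norm_pos_iff.2 (mul_ne_zero hN0 hne)
  have h2 : ∀ k : ℕ, ‖(N : ℚ_[ℓ]) * x i‖ * (ℓ : ℝ) ^ k ≤ 1 := by
    intro k
    have h3 := h1 k i
    have h4 : ((N : ℚ_[ℓ]) • ((ℓ : ℚ_[ℓ]) ^ k)⁻¹ • x) i = ((ℓ : ℚ_[ℓ]) ^ k)⁻¹ * ((N : ℚ_[ℓ]) * x i) := by
      simp only [Pi.smul_apply, smul_eq_mul]
      ring
    rw [h4, norm_mul, norm_inv, norm_pow, Padic.norm_p, inv_pow, inv_inv] at h3
    linarith [mul_comm ((ℓ : ℝ) ^ k) ‖(N : ℚ_[ℓ]) * x i‖]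
  have hℓ1 : (1 : ℝ) < ℓ := by exact_mod_cast hℓ.out.one_lt
  obtain ⟨k, hk⟩ := pow_unbounded_of_one_lt (1 / ‖(N : ℚ_[ℓ]) * x i‖) hℓ1
  have h5 := h2 k
  rw [div_lt_iff₀ hpos] at hk
  linarith [mul_comm ((ℓ : ℝ) ^ k) ‖(N : ℚ_[ℓ]) * x i‖]

theorem noInvariants {t : Pt} {Δ : Subgroup Gal(AlgebraicClosure ℚ/ℚ)} {N : ℕ} (hN : 0 < N)
    (h : KillsInvariants s τ t Δ N) : NoInvariants s τ t Δ :=
  fun ℓ _ x hx => invariants_zero hN h ℓ x hx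

theorem almostAll_of_failsAtMost {A : Pt → Prop} (h : ∀ η : ℝ, 0 < η → FailsAtMost η A) :
    AlmostAll A := by
  unfold AlmostAll
  rw [Metric.tendsto_atTop]
  intro ε hε
  obtain ⟨H₀, hH₀⟩ := h (ε / 2) (by positivity)
  refine ⟨H₀, fun H hH => ?_⟩
  rw [Real.dist_eq, sub_zero, abs_of_nonneg (by positivity)]
  have h1 := hH₀ H hH
  rcases (Nat.cast_nonneg (Nat.card {t : Pt // t.height ≤ H}) : (0 : ℝ) ≤ _).eq_or_lt with h0 | h0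
  · rw [← h0, div_zero]
    exact hε
  · rw [div_lt_iff₀ h0]
    have : ε / 2 * (Nat.card {t : Pt // t.height ≤ H} : ℝ) <
        ε * (Nat.card {t : Pt // t.height ≤ H} : ℝ) := by
      apply mul_lt_mul_of_pos_right _ h0
      linarith
    exact lt_of_le_of_lt h1 this

end Pool.Agent.N978.BR
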