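import Pool.Agent.N978.BR.Stm

/-!
Project BR (helper978), subtask 10373 (LC), by helper832: the local bound.
-/

set_option autoImplicit false

namespace Pool.Agent.N978.BR

open Module Polynomial Matrix

namespace LC

variable {ℓ : ℕ} [Fact ℓ.Prime] {n : ℕ}

theorem nsum {ι : Type*} (s : Finset ι) (f : ι → ℚ_[ℓ]) (h : ∀ i ∈ s, ‖f i‖ ≤ 1) :
    ‖∑ i ∈ s, f i‖ ≤ 1 := by
  have h1 : ∑ i ∈ s, f i ∈ PadicInt.subring ℓ := sum_mem fun i hi => h i hi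
  exact h1

theorem nadd {a b : ℚ_[ℓ]} (ha : ‖a‖ ≤ 1) (hb : ‖b‖ ≤ 1) : ‖a + b‖ ≤ 1 := by
  have h1 : a + b ∈ PadicInt.subring ℓ := add_mem ha hb
  exact h1

theorem nsub {a b : ℚ_[ℓ]} (ha : ‖a‖ ≤ 1) (hb : ‖b‖ ≤ 1) : ‖a - b‖ ≤ 1 := by
  have h1 : a - b ∈ PadicInt.subring ℓ := sub_mem ha hb
  exact h1

theorem nmul {a b : ℚ_[ℓ]} (ha : ‖a‖ ≤ 1) (hb : ‖b‖ ≤ 1) : ‖a * b‖ ≤ 1 := by
  have h1 : a * b ∈ PadicInt.subring ℓ := mul_mem ha hb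
  exact h1

theorem nnat (k : ℕ) : ‖(k : ℚ_[ℓ])‖ ≤ 1 := by
  have h1 : (k : ℚ_[ℓ]) ∈ PadicInt.subring ℓ := natCast_mem _ k
  exact h1

theorem iadd {a b : Fin n → ℚ_[ℓ]} (ha : IsInt a) (hb : IsInt b) : IsInt (a + b) :=
  fun i => nadd (ha i) (hb i)

theorem isub {a b : Fin n → ℚ_[ℓ]} (ha : IsInt a) (hb : IsInt b) : IsInt (a - b) :=
  fun i => nsub (ha i) (hb i)

theorem inat (k : ℕ) {a : Fin n → ℚ_[ℓ]} (ha : IsInt a) : IsInt ((k : ℚ_[ℓ]) • a) :=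
  fun i => nmul (nnat k) (ha i)

theorem idot {a b : Fin n → ℚ_[ℓ]} (ha : IsInt a) (hb : IsInt b) : ‖a ⬝ᵥ b‖ ≤ 1 :=
  nsum _ _ fun i _ => nmul (ha i) (hb i)

theorem imul {A : Matrix (Fin n) (Fin n) ℚ_[ℓ]} {a : Fin n → ℚ_[ℓ]} (hA : IsIntM A) (ha : IsInt a) :
    IsInt (A *ᵥ a) := fun i => idot (hA i) ha

/-- the ring of the integral matrices -/
def RM (ℓ : ℕ) [Fact ℓ.Prime] (n : ℕ) : Subring (Matrix (Fin n) (Fin n) ℚ_[ℓ]) where
  carrier := {A | IsIntM A}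
  mul_mem' := by
    intro A B hA hB i j
    rw [Matrix.mul_apply]
    exact nsum _ _ fun k _ => nmul (hA i k) (hB k j)
  one_mem' := by
    intro i j
    rw [Matrix.one_apply]
    split_ifs
    · rw [norm_one]
    · rw [norm_zero]
      exact zero_le_one
  add_mem' := fun hA hB i j => nadd (hA i j) (hB i j)
  zero_mem' := by
    intro i j
    rw [Matrix.zero_apply, norm_zero]
    exact zero_le_one
  neg_mem' := by
    intro A hA i j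
    rw [Matrix.neg_apply, norm_neg]
    exact hA i j

theorem iaeval {g : Matrix (Fin n) (Fin n) ℚ_[ℓ]} (hg : IsIntM g) (A : ℤ[X]) :
    IsIntM (aeval g A) := by
  have h1 : aeval g A ∈ RM ℓ n := by
    rw [aeval_eq_sum_range]
    exact sum_mem fun i _ => zsmul_mem (pow_mem (show g ∈ RM ℓ n from hg) i) _
  exact h1

/-- the bilinear form -/
noncomputable def ps (J : Matrix (Fin n) (Fin n) ℚ_[ℓ]) (a c : Fin n → ℚ_[ℓ]) : ℚ_[ℓ] := a ⬝ᵥ (J *ᵥ c)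

variable {J : Matrix (Fin n) (Fin n) ℚ_[ℓ]}

theorem ps_int (hJ : IsIntM J) {a c : Fin n → ℚ_[ℓ]} (ha : IsInt a) (hc : IsInt c) :
    ‖ps J a c‖ ≤ 1 := idot ha (imul hJ hc)

theorem ps_addl (a b c : Fin n → ℚ_[ℓ]) : ps J (a + b) c = ps J a c + ps J b c :=
  add_dotProduct _ _ _

theorem ps_subl (a b c : Fin n → ℚ_[ℓ]) : ps J (a - b) c = ps J a c - ps J b c :=
  sub_dotProduct _ _ _

theorem ps_smull (k : ℚ_[ℓ]) (a c : Fin n → ℚ_[ℓ]) : ps J (k • a) c = k * ps J a c := by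
  unfold ps
  rw [smul_dotProduct, smul_eq_mul]

theorem ps_addr (a b c : Fin n → ℚ_[ℓ]) : ps J a (b + c) = ps J a b + ps J a c := by
  unfold ps
  rw [mulVec_add, dotProduct_add]

theorem ps_subr (a b c : Fin n → ℚ_[ℓ]) : ps J a (b - c) = ps J a b - ps J a c := by
  unfold ps
  rw [mulVec_sub, dotProduct_sub]

theorem ps_smulr (k : ℚ_[ℓ]) (a c : Fin n → ℚ_[ℓ]) : ps J a (k • c) = k * ps J a c := by
  unfold ps
  rw [mulVec_smul, dotProduct_smul, smul_eq_mul]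

theorem ps_symm (hJ : Jᵀ = J) (a c : Fin n → ℚ_[ℓ]) : ps J a c = ps J c a := by
  unfold ps
  rw [dotProduct_mulVec, ← mulVec_transpose, hJ, dotProduct_comm]

theorem ps_iso {g : Matrix (Fin n) (Fin n) ℚ_[ℓ]} (hg : gᵀ * J * g = J) (a c : Fin n → ℚ_[ℓ]) :
    ps J (g *ᵥ a) (g *ᵥ c) = ps J a c := by
  unfold ps
  rw [← vecMul_transpose, ← dotProduct_mulVec, mulVec_mulVec, mulVec_mulVec, hg]

theorem ps_pow {g : Matrix (Fin n) (Fin n) ℚ_[ℓ]} (hg : gᵀ * J * g = J) (k : ℕ)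
    (a c : Fin n → ℚ_[ℓ]) : ps J ((g ^ k) *ᵥ a) ((g ^ k) *ᵥ c) = ps J a c := by
  induction k with
  | zero => rw [pow_zero, one_mulVec, one_mulVec]
  | succ k ih => rw [pow_succ', ← mulVec_mulVec, ← mulVec_mulVec, ps_iso hg, ih]

theorem eig_pow {g : Matrix (Fin n) (Fin n) ℚ_[ℓ]} {e : ℚ_[ℓ]} {y : Fin n → ℚ_[ℓ]}
    (hy : g *ᵥ y = e • y) (k : ℕ) : (g ^ k) *ᵥ y = e ^ k • y := by
  induction k with
  | zero => rw [pow_zero, pow_zero, one_mulVec, one_smul]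
  | succ k ih => rw [pow_succ', ← mulVec_mulVec, ih, mulVec_smul, hy, smul_smul, pow_succ]

end LC

open LC

theorem t_LC : S_LC := by
  intro ℓ _ n N J g g' h h' R S ε A b δ D₁ D₂ hN hev hε hJ hg hg' hh hh' hR hS hJt hgg hhh hgJ hhJ
    hJ' hdim hRS hpoly hann x hx1 hx2
  obtain ⟨J', hJ', hJJ⟩ := hJ'
  -- the polynomial identity
  have hp : A + b * (X ^ N - 1) = C (D₁ : ℤ) := by
    apply Polynomial.map_injective (Int.castRingHom ℚ) Int.cast_injective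
    simpa using hpoly
  have hp' : A + (X ^ N - 1) * b = C (D₁ : ℤ) := by rw [mul_comm, hp]
  obtain ⟨Ag, hAg⟩ : ∃ Ag, Ag = aeval g A := ⟨_, rfl⟩
  obtain ⟨bg, hbg⟩ : ∃ bg, bg = aeval g b := ⟨_, rfl⟩
  have iAg : IsIntM Ag := hAg ▸ iaeval hg A
  have ibg : IsIntM bg := hbg ▸ iaeval hg b
  rw [← hAg] at hann
  have hC : (aeval g (C (D₁ : ℤ)) : Matrix (Fin n) (Fin n) ℚ_[ℓ]) = (D₁ : ℚ_[ℓ]) • 1 := by
    rw [aeval_C]
    simp only [map_natCast]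
    rw [Nat.cast_smul_eq_nsmul, nsmul_one]
  have e1 : Ag + bg * (g ^ N - 1) = (D₁ : ℚ_[ℓ]) • 1 := by
    have := congrArg (aeval g) hp
    rw [hC] at this
    rw [← this, hAg, hbg]
    simp
  have e2 : Ag + (g ^ N - 1) * bg = (D₁ : ℚ_[ℓ]) • 1 := by
    have := congrArg (aeval g) hp'
    rw [hC] at this
    rw [← this, hAg, hbg]
    simp
  have ev1 : ∀ z : Fin n → ℚ_[ℓ], (D₁ : ℚ_[ℓ]) • z = Ag *ᵥ z + bg *ᵥ ((g ^ N) *ᵥ z - z) := by
    intro z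
    have := congrArg (fun T => T *ᵥ z) e1
    simp only [add_mulVec, smul_mulVec, one_mulVec, ← mulVec_mulVec, sub_mulVec] at this
    exact this.symm
  have ev2 : ∀ z : Fin n → ℚ_[ℓ], (D₁ : ℚ_[ℓ]) • z =
      Ag *ᵥ z + ((g ^ N) *ᵥ (bg *ᵥ z) - bg *ᵥ z) := by
    intro z
    have := congrArg (fun T => T *ᵥ z) e2
    simp only [add_mulVec, smul_mulVec, one_mulVec, ← mulVec_mulVec, sub_mulVec] at this
    exact this.symm
  have hgA : ∀ z : Fin n → ℚ_[ℓ], g *ᵥ (Ag *ᵥ z) = (ε : ℚ_[ℓ]) • (Ag *ᵥ z) := by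
    intro z
    have := congrArg (fun T => T *ᵥ z) hann
    simp only [← mulVec_mulVec, sub_mulVec, smul_mulVec, one_mulVec, zero_mulVec] at this
    exact sub_eq_zero.1 this
  obtain ⟨y, hy⟩ : ∃ y, y = Ag *ᵥ x := ⟨_, rfl⟩
  obtain ⟨lam, hlam⟩ : ∃ lam, lam = bg *ᵥ ((g ^ N) *ᵥ x - x) := ⟨_, rfl⟩
  have ilam : IsInt lam := hlam ▸ imul ibg hx1
  have hx : (D₁ : ℚ_[ℓ]) • x = y + lam := by rw [hy, hlam, ev1]
  have hgy : g *ᵥ y = (ε : ℚ_[ℓ]) • y := by rw [hy, hgA]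
  have hgNy : (g ^ N) *ᵥ y = y := by
    rw [eig_pow hgy]
    have : ((ε : ℤ) : ℚ_[ℓ]) ^ N = 1 := by
      rcases hε with h | h
      · rw [h]
        simp
      · rw [h]
        push_cast
        exact hev.neg_one_pow
    rw [this, one_smul]
  have ihy : IsInt (h *ᵥ y - y) := by
    have e : h *ᵥ y - y = (D₁ : ℚ_[ℓ]) • (h *ᵥ x - x) - (h *ᵥ lam - lam) := by
      have hy2 : y = (D₁ : ℚ_[ℓ]) • x - lam := by rw [hx, add_sub_cancel_right]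
      rw [hy2, mulVec_sub, mulVec_smul, smul_sub]
      abel
    rw [e]
    exact isub (inat _ hx2) (isub (imul hh ilam) ilam)
  -- the main claim
  have claim : ∀ z : Fin n → ℚ_[ℓ], IsInt z → ‖(D₁ : ℚ_[ℓ]) * D₂ * ps J y z‖ ≤ 1 := by
    intro z hz
    by_cases hy0 : y = 0
    · have : ps J y z = 0 := by
        rw [hy0]
        exact zero_dotProduct _
      rw [this, mul_zero, norm_zero]
      exact zero_le_one
    obtain ⟨w, hw⟩ : ∃ w, w = Ag *ᵥ z := ⟨_, rfl⟩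
    have iw : IsInt w := hw ▸ imul iAg hz
    obtain ⟨c, hc⟩ := hdim y w hgy (by rw [hw, hgA]) hy0
    have f1 : (D₁ : ℚ_[ℓ]) * ps J y z = ps J y w := by
      rw [← ps_smulr, ev2, ← hw, ps_addr, ps_subr]
      have : ps J y ((g ^ N) *ᵥ (bg *ᵥ z)) = ps J y (bg *ᵥ z) := by
        conv_lhs => rw [← hgNy]
        exact ps_pow hgJ N _ _
      rw [this, sub_self, add_zero]
    have f2 : (D₂ : ℚ_[ℓ]) • y = (h *ᵥ (R *ᵥ y) - R *ᵥ y) + S *ᵥ (h *ᵥ y - y) := by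
      have := congrArg (fun T => T *ᵥ y) hRS
      simp only [add_mulVec, smul_mulVec, one_mulVec, ← mulVec_mulVec, sub_mulVec] at this
      exact this.symm
    have hh'w : ∀ a c : Fin n → ℚ_[ℓ], ps J (h *ᵥ a) c = ps J a (h' *ᵥ c) := by
      intro a c
      have : c = h *ᵥ (h' *ᵥ c) := by rw [mulVec_mulVec, hhh, one_mulVec]
      conv_lhs => rw [this]
      exact ps_iso hhJ _ _
    have hh1 : h' * h = 1 := mul_eq_one_comm.1 hhh
    have f3 : ps J (h *ᵥ (R *ᵥ y) - R *ᵥ y) w = - ps J (R *ᵥ w) (h' *ᵥ (h *ᵥ y - y)) := by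
      have e3 : h' *ᵥ (h *ᵥ w - w) = w - h' *ᵥ w := by
        rw [mulVec_sub, mulVec_mulVec, hh1, one_mulVec]
      have e4 : ps J (h *ᵥ (R *ᵥ y) - R *ᵥ y) w = - ps J (R *ᵥ y) (h' *ᵥ (h *ᵥ w - w)) := by
        rw [ps_subl, hh'w, e3, ps_subr]
        ring
      rw [e4, hc, mulVec_smul, mulVec_smul, ← smul_sub, mulVec_smul, ps_smulr, ps_smull]
    have f4 : (D₁ : ℚ_[ℓ]) * D₂ * ps J y z =
        - ps J (R *ᵥ w) (h' *ᵥ (h *ᵥ y - y)) + ps J (S *ᵥ (h *ᵥ y - y)) w := by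
      rw [mul_comm (D₁ : ℚ_[ℓ]), mul_assoc, f1, ← ps_smull, f2, ps_addl, f3]
    rw [f4]
    refine nadd ?_ (ps_int hJ (imul hS ihy) iw)
    rw [norm_neg]
    exact ps_int hJ (imul hR iw) (imul hh' ihy)
  have hJy : IsInt (((D₁ : ℚ_[ℓ]) * D₂) • (J *ᵥ y)) := by
    intro i
    have h1 := claim (Pi.single i 1) (by
      intro j
      by_cases hij : j = i
      · rw [hij, Pi.single_eq_same, norm_one]
      · rw [Pi.single_eq_of_ne hij, norm_zero]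
        exact zero_le_one)
    rw [ps_symm hJt] at h1
    unfold ps at h1
    rw [single_one_dotProduct] at h1
    exact h1
  have hy3 : IsInt (((D₁ : ℚ_[ℓ]) * D₂ * δ) • y) := by
    have e5 : ((D₁ : ℚ_[ℓ]) * D₂ * δ) • y = J' *ᵥ (((D₁ : ℚ_[ℓ]) * D₂) • (J *ᵥ y)) := by
      rw [mulVec_smul, mulVec_mulVec, hJJ, smul_mulVec, one_mulVec, smul_smul]
    rw [e5]
    exact imul hJ' hJy
  have e6 : ((D₁ * D₁ * D₂ * δ : ℕ) : ℚ_[ℓ]) • x =
      ((D₁ : ℚ_[ℓ]) * D₂ * δ) • y + ((D₁ * D₂ * δ : ℕ) : ℚ_[ℓ]) • lam := by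
    have e7 : ((D₁ * D₁ * D₂ * δ : ℕ) : ℚ_[ℓ]) • x =
        ((D₁ : ℚ_[ℓ]) * D₂ * δ) • ((D₁ : ℚ_[ℓ]) • x) := by
      rw [smul_smul]
      congr 1
      push_cast
      ring
    rw [e7, hx, smul_add]
    push_cast
    rfl
  rw [e6]
  exact iadd hy3 (inat _ ilam)

end Pool.Agent.N978.BR
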