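import Mathlib
import Pool.Agent.N978.BR.Stm

/-!
# BR/LN: a simple root of the characteristic polynomial (helper999, for helper978)
-/

set_option autoImplicit false

namespace Pool.Agent.N978.BR

open Module Polynomial Matrix

theorem t_LN : S_LN := by
  intro K _ n g μ B hg hB y w hy hw hy0
  classical
  obtain ⟨φ, hφ⟩ : ∃ φ : Module.End K (Fin n → K), φ = Matrix.toLin' g := ⟨_, rfl⟩
  have hchar : φ.charpoly = (X - C μ) * B := by
    rw [hφ, ← hg, ← LinearMap.charpoly_toMatrix (Matrix.toLin' g) (Pi.basisFun K (Fin n))]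
    rw [← LinearMap.toMatrix'_toLin' g]
    simp [LinearMap.toMatrix_eq_toMatrix']
  have hB0 : B ≠ 0 := by
    rintro rfl
    simp at hB
  have hmul : φ.charpoly.rootMultiplicity μ = 1 := by
    rw [hchar, Polynomial.rootMultiplicity_mul (mul_ne_zero (X_sub_C_ne_zero μ) hB0),
      Polynomial.rootMultiplicity_X_sub_C_self, Polynomial.rootMultiplicity_eq_zero hB]
  have hfin : finrank K (φ.maxGenEigenspace μ) = 1 := by
    rw [LinearMap.finrank_maxGenEigenspace_eq, hmul]
  have hmem : ∀ z : Fin n → K, g.mulVec z = μ • z → z ∈ φ.maxGenEigenspace μ := by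
    intro z hz
    have h1 : z ∈ φ.eigenspace μ := by
      rw [Module.End.mem_eigenspace_iff, hφ, Matrix.toLin'_apply, hz]
    exact (φ.genEigenspace_le_maximal μ 1) h1
  obtain ⟨v, hv0, hv⟩ := finrank_eq_one_iff'.1 hfin
  obtain ⟨a, ha⟩ := hv ⟨y, hmem y hy⟩
  obtain ⟨b, hb⟩ := hv ⟨w, hmem w hw⟩
  have ha' : a • (v : Fin n → K) = y := congrArg Subtype.val ha
  have hb' : b • (v : Fin n → K) = w := congrArg Subtype.val hb
  have ha0 : a ≠ 0 := by
    rintro rfl
    apply hy0
    rw [← ha', zero_smul]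
  refine ⟨b / a, ?_⟩
  rw [← ha', ← hb', smul_smul, div_mul_cancel₀ b ha0]

end Pool.Agent.N978.BR
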