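import Pool.Agent.N978.BR.Stm

/-!
# Project BR, UP: powers of a unipotent integral matrix
-/

set_option autoImplicit false

namespace Pool.Agent.N978.BR

namespace UP

open Finset

variable {A : Type} [Ring A]

/-- the geometric sum of a unipotent element has a quasi-inverse -/
lemma quasi (u : A) (hu : IsNilpotent (u - 1)) (k : ℕ) :
    ∃ (m : ℕ) (q' : A), (∑ i ∈ range k, u ^ i) * q' = ((k ^ m : ℕ) : A) ∧
      q' * (∑ i ∈ range k, u ^ i) = ((k ^ m : ℕ) : A) := by
  obtain ⟨q, hq⟩ : ∃ q, q = ∑ i ∈ range k, u ^ i := ⟨_, rfl⟩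
  rw [← hq]
  have hy : q - (k : A) = (u - 1) * ∑ i ∈ range k, ∑ j ∈ range i, u ^ j := by
    rw [mul_sum]
    have h1 : ∀ i ∈ range k, (u - 1) * ∑ j ∈ range i, u ^ j = u ^ i - 1 := fun i _ =>
      mul_geom_sum u i
    rw [sum_congr rfl h1, sum_sub_distrib, ← hq, sum_const, card_range, nsmul_eq_mul, mul_one]
  have hc : Commute (u - 1) (∑ i ∈ range k, ∑ j ∈ range i, u ^ j) := by
    refine Commute.sum_right _ _ _ fun i _ => Commute.sum_right _ _ _ fun j _ => ?_
    exact ((Commute.refl u).pow_right j).sub_left (Commute.one_left _)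
  have hn : IsNilpotent (q - (k : A)) := by
    rw [hy]
    exact hc.isNilpotent_mul_right hu
  have hn' : IsNilpotent ((k : A) - q) := by
    have := hn.neg
    rwa [neg_sub] at this
  obtain ⟨m, hm⟩ := hn'
  have hcom : Commute (k : A) ((k : A) - q) := Nat.cast_commute k _
  have e1 : (k : A) - ((k : A) - q) = q := by abel
  have e2 : (k : A) ^ m - ((k : A) - q) ^ m = ((k ^ m : ℕ) : A) := by
    rw [hm, sub_zero]
    push_cast
    rfl
  refine ⟨m, ∑ i ∈ range m, (k : A) ^ i * ((k : A) - q) ^ (m - 1 - i), ?_, ?_⟩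
  · have h := hcom.mul_geom_sum₂ m
    rw [e1, e2] at h
    exact h
  · have h := hcom.geom_sum₂_mul m
    rw [e1, e2] at h
    exact h

end UP

theorem t_UP : S_UP := by
  intro n u hu ⟨D, R, S, hD, h⟩ k hk
  obtain ⟨m, q', h1, h2⟩ := UP.quasi u hu k
  refine ⟨k ^ m * D, q' * R, S * q', by positivity, ?_⟩
  have e1 : (u ^ k - 1) * (q' * R) = ((k ^ m : ℕ) : Matrix (Fin n) (Fin n) ℤ) * ((u - 1) * R) := by
    rw [← mul_geom_sum u k]
    calc (u - 1) * (∑ i ∈ Finset.range k, u ^ i) * (q' * R)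
        = (u - 1) * ((∑ i ∈ Finset.range k, u ^ i) * q') * R := by simp only [mul_assoc]
      _ = (u - 1) * ((k ^ m : ℕ) : Matrix (Fin n) (Fin n) ℤ) * R := by rw [h1]
      _ = _ := by rw [← (Nat.cast_commute (k ^ m) (u - 1)).eq, mul_assoc]
  have e2 : S * q' * (u ^ k - 1) = ((k ^ m : ℕ) : Matrix (Fin n) (Fin n) ℤ) * (S * (u - 1)) := by
    rw [← geom_sum_mul u k]
    calc S * q' * ((∑ i ∈ Finset.range k, u ^ i) * (u - 1))
        = S * (q' * (∑ i ∈ Finset.range k, u ^ i)) * (u - 1) := by simp only [mul_assoc]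
      _ = S * ((k ^ m : ℕ) : Matrix (Fin n) (Fin n) ℤ) * (u - 1) := by rw [h2]
      _ = _ := by rw [← (Nat.cast_commute (k ^ m) S).eq, mul_assoc]
  rw [e1, e2, ← mul_add, h, mul_smul_comm, mul_one]
  rw [zsmul_eq_mul, zsmul_eq_mul, mul_one]
  push_cast
  rw [(Nat.cast_commute D _).eq]

end Pool.Agent.N978.BR
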