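import Pool.Agent.N978.BR.Defs
import Pool.Agent.N978.BR.BZ
import Pool.Agent.N978.BR.UP
import Pool.Agent.N978.BR.LN
import Pool.Agent.N978.BR.LC

/-!
# The bound at one prime number, from one Frobenius element and one element of an inertia group
-/

set_option autoImplicit false

namespace Pool.Agent.N978.BR

open Polynomial Matrix LC

section rational

variable {ℓ : ℕ} [Fact ℓ.Prime] {n : ℕ}

theorem aeval_int (g : Matrix (Fin n) (Fin n) ℚ_[ℓ]) (A : ℤ[X]) :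
    aeval g A = aeval g (A.map (Int.castRingHom ℚ)) := by
  have h := aeval_map_algebraMap (R := ℤ) ℚ g A
  exact h.symm

theorem aeval_charpoly_dvd {g : Matrix (Fin n) (Fin n) ℚ_[ℓ]} {P : ℚ[X]}
    (hP : g.charpoly = P.map (algebraMap ℚ ℚ_[ℓ])) {Q : ℚ[X]} (h : P ∣ Q) : aeval g Q = 0 := by
  obtain ⟨Q', rfl⟩ := h
  have h1 : aeval g P = 0 := by
    rw [← aeval_map_algebraMap ℚ_[ℓ] g P, ← hP, aeval_self_charpoly]
  rw [map_mul, h1, zero_mul]

/-- the bound for a Frobenius element without eigenvalues which are roots of unity -/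
theorem even_bound {g : Matrix (Fin n) (Fin n) ℚ_[ℓ]} (hg : IsIntM g) {P : ℚ[X]}
    (hP : g.charpoly = P.map (algebraMap ℚ ℚ_[ℓ])) {N D₁ : ℕ} {A b : ℤ[X]}
    (hAb : A.map (Int.castRingHom ℚ) + b.map (Int.castRingHom ℚ) * (X ^ N - 1) = C (D₁ : ℚ))
    (hPA : P ∣ A.map (Int.castRingHom ℚ)) {x : Fin n → ℚ_[ℓ]}
    (hx : IsInt ((g ^ N).mulVec x - x)) : IsInt ((D₁ : ℚ_[ℓ]) • x) := by
  have h1 := congrArg (fun q => aeval g q) hAb
  simp only [map_add, map_mul, map_sub, map_pow, aeval_X, map_one, aeval_C] at h1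
  rw [aeval_charpoly_dvd hP hPA, zero_add, ← aeval_int] at h1
  have h2 : (D₁ : ℚ_[ℓ]) • x = (aeval g b).mulVec ((g ^ N).mulVec x - x) := by
    have h3 := congrArg (fun T : Matrix (Fin n) (Fin n) ℚ_[ℓ] => T.mulVec x) h1
    rw [← mulVec_mulVec, sub_mulVec, one_mulVec] at h3
    rw [h3]
    have h4 : (algebraMap ℚ (Matrix (Fin n) (Fin n) ℚ_[ℓ])) (D₁ : ℚ) = ((D₁ : ℚ_[ℓ])) • 1 := by
      rw [map_natCast, ← nsmul_one, Nat.cast_smul_eq_nsmul]
    rw [h4, smul_mulVec, one_mulVec]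
  rw [h2]
  exact imul (iaeval hg b) hx

theorem rat_int (A : Matrix (Fin n) (Fin n) ℤ_[ℓ]) : IsIntM (rat A) := fun i j => (A i j).2

theorem rat_mul (A B : Matrix (Fin n) (Fin n) ℤ_[ℓ]) : rat (A * B) = rat A * rat B := by
  unfold rat
  exact Matrix.map_mul (f := (algebraMap ℤ_[ℓ] ℚ_[ℓ]))

theorem rat_one : rat (1 : Matrix (Fin n) (Fin n) ℤ_[ℓ]) = 1 := by
  unfold rat
  exact Matrix.map_one _ (by simp) (by simp)

theorem rat_pow (A : Matrix (Fin n) (Fin n) ℤ_[ℓ]) (k : ℕ) : rat (A ^ k) = rat A ^ k := by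
  induction k with
  | zero => rw [pow_zero, pow_zero, rat_one]
  | succ k ih => rw [pow_succ, pow_succ, rat_mul, ih]

theorem rat_transpose (A : Matrix (Fin n) (Fin n) ℤ_[ℓ]) : rat Aᵀ = (rat A)ᵀ := rfl

/-- an integral matrix over the `ℓ`-adic numbers -/
noncomputable def ip (ℓ : ℕ) [Fact ℓ.Prime] (A : Matrix (Fin n) (Fin n) ℤ) :
    Matrix (Fin n) (Fin n) ℚ_[ℓ] := A.map (Int.cast : ℤ → ℚ_[ℓ])

theorem rat_padic (A : Matrix (Fin n) (Fin n) ℤ) : rat (padic ℓ A) = ip ℓ A := by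
  ext i j
  simp [rat, padic, ip]

theorem ip_int (A : Matrix (Fin n) (Fin n) ℤ) : IsIntM (ip ℓ A) := fun i j => by
  show ‖((A i j : ℤ) : ℚ_[ℓ])‖ ≤ 1
  exact Padic.norm_int_le_one _

theorem ip_mul (A B : Matrix (Fin n) (Fin n) ℤ) : ip ℓ (A * B) = ip ℓ A * ip ℓ B := by
  unfold ip
  exact Matrix.map_mul (f := Int.castRingHom ℚ_[ℓ])

theorem ip_add (A B : Matrix (Fin n) (Fin n) ℤ) : ip ℓ (A + B) = ip ℓ A + ip ℓ B := by
  ext i j
  simp [ip]

theorem ip_sub (A B : Matrix (Fin n) (Fin n) ℤ) : ip ℓ (A - B) = ip ℓ A - ip ℓ B := by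
  ext i j
  simp [ip]

theorem ip_one : ip ℓ (1 : Matrix (Fin n) (Fin n) ℤ) = 1 := by
  unfold ip
  exact Matrix.map_one _ (by simp) (by simp)

theorem ip_smul (D : ℕ) : ip ℓ ((D : ℤ) • (1 : Matrix (Fin n) (Fin n) ℤ)) = (D : ℚ_[ℓ]) • 1 := by
  ext i j
  show ((((D : ℤ) • (1 : Matrix (Fin n) (Fin n) ℤ)) i j : ℤ) : ℚ_[ℓ]) = _
  rw [Matrix.smul_apply, Matrix.smul_apply, Matrix.one_apply, Matrix.one_apply]
  split_ifs <;> simp

theorem intM_mul {A B : Matrix (Fin n) (Fin n) ℚ_[ℓ]} (hA : IsIntM A) (hB : IsIntM B) :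
    IsIntM (A * B) := (RM ℓ n).mul_mem hA hB

theorem intM_pow {A : Matrix (Fin n) (Fin n) ℚ_[ℓ]} (hA : IsIntM A) (k : ℕ) :
    IsIntM (A ^ k) := (RM ℓ n).pow_mem hA k

end rational

/-- **The local bound**: `T` is a homomorphism to integral isometries of `J` over `ℤ_ℓ`, the
characteristic polynomial of `T φ` is `(X - ε) B` where no root of `B` is a root of unity, `T γ` is
`c u ^ e c'`. -/
theorem odd_bound {G : Type} [Group G] {ℓ : ℕ} [Fact ℓ.Prime] {n : ℕ}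
    (T : G →* Matrix (Fin n) (Fin n) ℤ_[ℓ]) {J J' : Matrix (Fin n) (Fin n) ℤ} (hJs : Jᵀ = J)
    (hJ : ∀ g, (T g)ᵀ * padic ℓ J * T g = padic ℓ J) {δ : ℕ} (hδ : J' * J = (δ : ℤ) • 1)
    {φ γ : G} {ε : ℤ} (hε : ε = 1 ∨ ε = -1) {B : ℚ[X]} (hB : Free B)
    (hφ : (rat (T φ)).charpoly = ((X - C (ε : ℚ)) * B).map (algebraMap ℚ ℚ_[ℓ]))
    {u R S : Matrix (Fin n) (Fin n) ℤ} {e N D₁ D₂ : ℕ} (hN : 0 < N) (hev : Even N)
    {c c' : Matrix (Fin n) (Fin n) ℤ_[ℓ]} (hcc : c * c' = 1) (hcc' : c' * c = 1)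
    (hγ : T γ = c * padic ℓ (u ^ e) * c')
    (hRS : (u ^ (e * N) - 1) * R + S * (u ^ (e * N) - 1) = (D₂ : ℤ) • 1)
    {A b : ℤ[X]}
    (hAb : A.map (Int.castRingHom ℚ) + b.map (Int.castRingHom ℚ) * (X ^ N - 1) = C (D₁ : ℚ))
    (hBA : B ∣ A.map (Int.castRingHom ℚ)) {x : Fin n → ℚ_[ℓ]}
    (hx1 : IsInt ((rat (T (φ ^ N))).mulVec x - x)) (hx2 : IsInt ((rat (T (γ ^ N))).mulVec x - x)) :
    IsInt (((D₁ * D₁ * D₂ * δ : ℕ) : ℚ_[ℓ]) • x) := by
  have hinv : ∀ g : G, rat (T g) * rat (T g⁻¹) = 1 := by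
    intro g
    rw [← rat_mul, ← map_mul, mul_inv_cancel, map_one, rat_one]
  have hiso : ∀ g : G, (rat (T g))ᵀ * ip ℓ J * rat (T g) = ip ℓ J := by
    intro g
    have h1 := congrArg rat (hJ g)
    rw [rat_mul, rat_mul, rat_transpose, rat_padic] at h1
    exact h1
  have hpow : ∀ k : ℕ, rat (T γ ^ k) = rat c * ip ℓ (u ^ (e * k)) * rat c' := by
    intro k
    induction k with
    | zero => rw [pow_zero, mul_zero, pow_zero, ip_one, mul_one, ← rat_mul, hcc]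
    | succ k ih =>
      rw [pow_succ, rat_mul, ih, hγ, rat_mul, rat_mul, rat_padic, mul_add, mul_one, pow_add, ip_mul]
      have h1 : rat c' * rat c = 1 := by rw [← rat_mul, hcc', rat_one]
      calc rat c * ip ℓ (u ^ (e * k)) * rat c' * (rat c * ip ℓ (u ^ e) * rat c')
          = rat c * ip ℓ (u ^ (e * k)) * (rat c' * rat c) * ip ℓ (u ^ e) * rat c' := by
            simp only [mul_assoc]
        _ = _ := by rw [h1, mul_one]; simp only [mul_assoc]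
  have hc1 : rat c * rat c' = 1 := by rw [← rat_mul, hcc, rat_one]
  have hc2 : rat c' * rat c = 1 := by rw [← rat_mul, hcc', rat_one]
  have hh : rat (T (γ ^ N)) = rat c * ip ℓ (u ^ (e * N)) * rat c' := by
    rw [map_pow]
    exact hpow N
  have hsub : rat (T (γ ^ N)) - 1 = rat c * ip ℓ (u ^ (e * N) - 1) * rat c' := by
    rw [hh, ip_sub, ip_one, mul_sub, sub_mul, mul_one, hc1]
  have hε0 : (B.map (algebraMap ℚ ℚ_[ℓ])).eval (ε : ℚ_[ℓ]) ≠ 0 := by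
    have h1 : B.eval (ε : ℚ) ≠ 0 := by
      intro h0
      apply hB (ε : ℂ) _ 2 two_pos
      · rcases hε with rfl | rfl <;> simp
      · have h2 : aeval ((algebraMap ℚ ℂ) (ε : ℚ)) B = 0 := by
          rw [aeval_algebraMap_apply, Polynomial.coe_aeval_eq_eval, h0, map_zero]
        rw [map_intCast] at h2
        exact h2
    have h3 : (B.map (algebraMap ℚ ℚ_[ℓ])).eval ((algebraMap ℚ ℚ_[ℓ]) (ε : ℚ)) =
        (algebraMap ℚ ℚ_[ℓ]) (B.eval (ε : ℚ)) := by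
      rw [eval_map, eval₂_at_apply]
    rw [map_intCast] at h3
    rw [h3]
    exact fun h0 => h1 ((algebraMap ℚ ℚ_[ℓ]).injective (by rw [h0, map_zero]))
  refine t_LC ℓ n N (ip ℓ J) (rat (T φ)) (rat (T φ⁻¹)) (rat (T (γ ^ N))) (rat (T (γ ^ N)⁻¹))
    (rat c * ip ℓ R * rat c') (rat c * ip ℓ S * rat c') ε A b δ D₁ D₂ hN hev hε (ip_int J)
    (rat_int _) (rat_int _) (rat_int _) (rat_int _)
    (intM_mul (intM_mul (rat_int _) (ip_int _)) (rat_int _))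
    (intM_mul (intM_mul (rat_int _) (ip_int _)) (rat_int _)) ?_ (hinv φ) (hinv _) (hiso φ)
    (hiso _) ⟨ip ℓ J', ip_int _, ?_⟩ ?_ ?_ hAb ?_ x ?_ hx2
  · -- symmetry
    have h1 : (ip ℓ J)ᵀ = ip ℓ Jᵀ := rfl
    rw [h1, hJs]
  · rw [← ip_mul, hδ, ip_smul]
  · -- eigenvectors
    have hcp : (rat (T φ)).charpoly = (X - C (ε : ℚ_[ℓ])) * B.map (algebraMap ℚ ℚ_[ℓ]) := by
      rw [hφ, Polynomial.map_mul, Polynomial.map_sub, Polynomial.map_X, Polynomial.map_C, map_intCast]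
    intro y w hy hw hy0
    exact t_LN ℚ_[ℓ] n (rat (T φ)) (ε : ℚ_[ℓ]) (B.map (algebraMap ℚ ℚ_[ℓ])) hcp hε0 y w hy hw hy0
  · rw [hsub]
    calc rat c * ip ℓ (u ^ (e * N) - 1) * rat c' * (rat c * ip ℓ R * rat c') +
          rat c * ip ℓ S * rat c' * (rat c * ip ℓ (u ^ (e * N) - 1) * rat c')
        = rat c * ip ℓ (u ^ (e * N) - 1) * (rat c' * rat c) * ip ℓ R * rat c' +
          rat c * ip ℓ S * (rat c' * rat c) * ip ℓ (u ^ (e * N) - 1) * rat c' := by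
          simp only [mul_assoc]
      _ = rat c * (ip ℓ (u ^ (e * N) - 1) * ip ℓ R + ip ℓ S * ip ℓ (u ^ (e * N) - 1)) * rat c' := by
          rw [hc2]
          simp only [mul_one, mul_add, add_mul, mul_assoc]
      _ = _ := by
          rw [← ip_mul, ← ip_mul, ← ip_add, hRS, ip_smul, mul_smul_comm, mul_one, smul_mul_assoc,
            hc1]
  · -- `(g - ε) A(g) = 0`
    obtain ⟨A', hA'⟩ := hBA
    have h1 : aeval (rat (T φ)) ((X - C (ε : ℚ)) * A.map (Int.castRingHom ℚ)) = 0 := by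
      refine aeval_charpoly_dvd hφ ?_
      rw [hA', ← mul_assoc]
      exact Dvd.intro _ rfl
    rw [map_mul, ← aeval_int, map_sub, aeval_X, aeval_C] at h1
    have h2 : (algebraMap ℚ (Matrix (Fin n) (Fin n) ℚ_[ℓ])) (ε : ℚ) = ((ε : ℚ_[ℓ])) • 1 := by
      rw [map_intCast, ← zsmul_one, Int.cast_smul_eq_zsmul]
    rw [h2] at h1
    exact h1
  · rw [← rat_pow, ← map_pow]
    exact hx1

end Pool.Agent.N978.BR
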