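import Mathlib

/-!
# Integral matrices whose kernel is contained in the image: statement
-/

set_option autoImplicit false

namespace Pool.Agent.N978.BR

/-- **GI**: if over `ℚ` the kernel of the integral matrix `N` is contained in its image, then
`N R + S N` is a positive integer for some integral matrices `R`, `S`. -/
def S_GI : Prop := ∀ (n : ℕ) (N : Matrix (Fin n) (Fin n) ℤ),
  (∀ x : Fin n → ℚ, (N.map (Int.cast : ℤ → ℚ)).mulVec x = 0 →
    ∃ y : Fin n → ℚ, x = (N.map (Int.cast : ℤ → ℚ)).mulVec y) →
  ∃ (D : ℕ) (R S : Matrix (Fin n) (Fin n) ℤ), 0 < D ∧ N * R + S * N = (D : ℤ) • 1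

end Pool.Agent.N978.BR
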